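import Pool.Agent.Q145.CG.OfReg
import Pool.Agent.Q145.MD.Reg

set_option autoImplicit false
set_option maxHeartbeats 4000000

/-! # The normal law for the reduced classes -/

namespace Pool.Agent.Q145.CG

open Finset Filter
open Pool.Agent.Q145.RA (cnt Cl card_Cl seqs card_filter_inst ratio_log)
open Pool.Agent.Q145.LD (hit)
open Pool.Agent.Q145.MD (refv deg2 reg2_cl log_pow_le log_pow_rpow)

open scoped Classical

/-- **The normal law for the reduced classes to almost all moduli.** -/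
theorem glaw_cl (ε : ℝ) (hε : 0 < ε) (hε1 : ε ≤ 1) : ∃ M : ℝ, 0 < M ∧ ∀ A : ℕ, ∃ D₀ : ℕ, ∀ D Y : ℕ, D₀ ≤ D →
    (D : ℝ) ^ (1 + ε) ≤ Y → Real.log Y ≤ Real.log D ^ A →
    ∃ B ⊆ Icc 1 D, (B.card : ℝ) ≤ D / Real.log D ^ A ∧ ∀ d ∈ Icc 1 D, D < 2 * d → d ∉ B → ∀ K : ℕ,
    M ≤ K * (refv d Y / Y) → (K : ℝ) ≤ Real.log D ^ A →
    (((seqs (Icc 1 Y) K).filter (fun s => ¬ GLaw ε (Real.sqrt (K * (refv d Y / Y))) (Cl d)
      (fun a => (hit (fun a s => (a + s * d).Prime) s a : ℝ) - K * (refv d Y / Y)))).card : ℝ) ≤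
      ε * (Y : ℝ) ^ K := by
  obtain ⟨η₀, hη₀, hlaw⟩ := glaw (α := ℕ) (β := ℕ) ε hε hε1
  set η : ℝ := min η₀ 1 with hη
  have hη0 : 0 < η := lt_min hη₀ one_pos
  have hηη : η ≤ η₀ := min_le_left _ _
  have hη1 : η ≤ 1 := min_le_right _ _
  refine ⟨1 / η, by positivity, fun A => ?_⟩
  obtain ⟨D₁, h1⟩ := deg2 A (A + 1) (A + 2) ε hε
  obtain ⟨Y₀, h2⟩ := reg2_cl (η / 2) (by positivity)
  obtain ⟨C, hC, hrat⟩ := ratio_log
  have hl : Tendsto (fun Y : ℕ => Real.log Y) atTop atTop :=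
    Real.tendsto_log_atTop.comp tendsto_natCast_atTop_atTop
  have hll : ∀ᶠ D : ℕ in atTop, 2 * C * Real.log (Real.log (D : ℝ)) ≤ η / 10 * Real.log D := by
    have h3 := (Real.isLittleO_log_id_atTop.bound (show (0 : ℝ) < η / (20 * C) by positivity))
    filter_upwards [hl.eventually h3, hl.eventually_ge_atTop 1] with D h4 h5
    rw [id, Real.norm_of_nonneg (Real.log_nonneg h5), Real.norm_of_nonneg (by linarith)] at h4
    calc 2 * C * Real.log (Real.log (D : ℝ)) ≤ 2 * C * (η / (20 * C) * Real.log D) :=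
          mul_le_mul_of_nonneg_left h4 (by positivity)
      _ = η / 10 * Real.log D := by
          field_simp
          ring
  obtain ⟨D₂, h3⟩ := eventually_atTop.1 ((log_pow_rpow 2 (1 / 2) (by norm_num)).and
    (hll.and ((hl.eventually_ge_atTop (max 3 (max (2 * C) (2 / η ^ 2)))).and
    (eventually_ge_atTop (max Y₀ (max 4 ⌈(1 / η) ^ 2⌉₊))))))
  refine ⟨max D₁ D₂, fun D Y hD hDY hlY => ?_⟩
  obtain ⟨b1, b2, b3, b4⟩ := h3 D ((le_max_right _ _).trans hD)
  have hlog3 : 3 ≤ Real.log (D : ℝ) := (le_max_left _ _).trans b3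
  have hlogC : 2 * C ≤ Real.log (D : ℝ) := ((le_max_left _ _).trans (le_max_right _ _)).trans b3
  have hlogη : 2 / η ^ 2 ≤ Real.log (D : ℝ) := ((le_max_right _ _).trans (le_max_right _ _)).trans b3
  have hDY₀ : Y₀ ≤ D := (le_max_left _ _).trans b4
  have hD4 : 4 ≤ D := ((le_max_left _ _).trans (le_max_right _ _)).trans b4
  have hDη : (1 / η) ^ 2 ≤ D := by
    have : ⌈(1 / η) ^ 2⌉₊ ≤ D := ((le_max_right _ _).trans (le_max_right _ _)).trans b4
    exact (Nat.le_ceil _).trans (by exact_mod_cast this)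
  have hDr : (4 : ℝ) ≤ D := by exact_mod_cast hD4
  have hD0 : (0 : ℝ) < D := by linarith
  have hDYr : (D : ℝ) ≤ Y := by
    refine le_trans ?_ hDY
    calc (D : ℝ) = (D : ℝ) ^ (1 : ℝ) := (Real.rpow_one _).symm
      _ ≤ (D : ℝ) ^ (1 + ε) := Real.rpow_le_rpow_of_exponent_le (by linarith) (by linarith)
  have hDYn : D ≤ Y := by exact_mod_cast hDYr
  have hY0 : (0 : ℝ) < Y := by linarith
  have hL0 : 0 < Real.log (D : ℝ) := by linarith
  have hF : Real.log (D * Y : ℝ) ≤ Real.log D ^ (A + 2) := by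
    rw [Real.log_mul (by linarith) (by linarith)]
    have e1 : Real.log (D : ℝ) ^ A * 1 ≤ Real.log (D : ℝ) ^ A * Real.log D :=
      mul_le_mul_of_nonneg_left (by linarith) (by positivity)
    have e2 : Real.log (D : ℝ) ≤ Real.log (D : ℝ) ^ (A + 1) := le_self_pow₀ (by linarith) (by omega)
    have e3 : Real.log (D : ℝ) ^ (A + 2) = Real.log (D : ℝ) ^ (A + 1) * Real.log D := by
      rw [show A + 2 = (A + 1) + 1 by ring, pow_succ]
    have e4 : Real.log (D : ℝ) ^ (A + 1) = Real.log (D : ℝ) ^ A * Real.log D := pow_succ _ _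
    have e5 : 0 < Real.log (D : ℝ) ^ (A + 1) := by positivity
    nlinarith
  obtain ⟨B, hB1, hB2, hB3⟩ := h1 D Y ((le_max_left _ _).trans hD) hDY hF
  refine ⟨B, hB1, hB2, fun d hd h2d hdB K hK hKA => ?_⟩
  obtain ⟨r1, r2, r3, r4⟩ := hB3 d hd h2d hdB
  have hd1 := (mem_Icc.1 hd).1
  have hdD := (mem_Icc.1 hd).2
  have h2dr : (D : ℝ) < 2 * d := by exact_mod_cast h2d
  have hdDr : (d : ℝ) ≤ D := by exact_mod_cast hdD
  have hd2 : 2 ≤ d := by omega
  have hdr : (2 : ℝ) ≤ d := by exact_mod_cast hd2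
  have hφ0 : (0 : ℝ) < d.totient := by exact_mod_cast Nat.totient_pos.2 (by omega)
  have hratd := hrat d (Real.log D) (by omega) hlog3 (Real.log_le_log (by linarith) hdDr)
  -- the size of the totient
  have hφ : (1 : ℝ) / η ≤ d.totient := by
    have e1 := hratd
    rw [div_le_iff₀ hφ0] at e1
    have e2 : Real.log (Real.log (D : ℝ)) ≤ Real.log D := by
      have := Real.log_le_sub_one_of_pos hL0
      linarith
    have e3 : (d : ℝ) ≤ C * Real.log D * d.totient := by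
      refine e1.trans ?_
      gcongr
    have e4 : (D : ℝ) ≤ Real.log D ^ 2 * d.totient := by
      have f1 : 2 * C * Real.log (D : ℝ) * d.totient ≤ Real.log D * Real.log D * d.totient := by gcongr
      nlinarith
    have e5 : (D : ℝ) ≤ (D : ℝ) ^ ((1 : ℝ) / 2) * d.totient := e4.trans (mul_le_mul_of_nonneg_right b1 hφ0.le)
    have e6 : (D : ℝ) ^ ((1 : ℝ) / 2) ≤ d.totient := by
      have f1 : (D : ℝ) ^ ((1 : ℝ) / 2) * (D : ℝ) ^ ((1 : ℝ) / 2) = D := by
        rw [← Real.rpow_add hD0]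
        norm_num
      have f2 : (D : ℝ) ^ ((1 : ℝ) / 2) * (D : ℝ) ^ ((1 : ℝ) / 2) ≤ (D : ℝ) ^ ((1 : ℝ) / 2) * d.totient := by
        rw [f1]
        exact e5
      exact le_of_mul_le_mul_left f2 (by positivity)
    refine le_trans ?_ e6
    rw [← Real.sqrt_eq_rpow]
    exact Real.le_sqrt_of_sq_le hDη
  set δ : ℝ := refv d Y / Y with hδ
  have hμ0 : 0 < (K : ℝ) * δ := lt_of_lt_of_le (by positivity) hK
  have hK0 : 0 < (K : ℝ) := by
    rcases Nat.eq_zero_or_pos K with h | h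
    · rw [h, Nat.cast_zero, zero_mul] at hμ0
      exact absurd hμ0 (lt_irrefl _)
    · exact_mod_cast h
  have hδ0 : 0 < δ := by
    by_contra h
    have : (K : ℝ) * δ ≤ 0 := mul_nonpos_of_nonneg_of_nonpos hK0.le (not_lt.1 h)
    linarith
  have hLA1 : (1 : ℝ) ≤ Real.log (D : ℝ) ^ A := one_le_pow₀ (by linarith)
  -- the density is small
  have hδ2 : δ ≤ η / 10 := by
    rw [hδ, div_le_iff₀ hY0]
    refine r3.trans ?_
    have hW : Real.log (D : ℝ) ≤ Real.log (d * Y : ℝ) := by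
      apply Real.log_le_log hD0
      nlinarith
    have hW0 : 0 < Real.log (d * Y : ℝ) := by linarith
    have e1 : (d : ℝ) * Y / (d.totient * Real.log (d * Y : ℝ)) = ((d : ℝ) / d.totient) * Y / Real.log (d * Y : ℝ) := by
      rw [div_mul_eq_mul_div, div_div]
    rw [e1, ← mul_div_assoc, div_le_iff₀ hW0]
    have hY0' := hY0.le
    calc 2 * ((d : ℝ) / d.totient * Y) ≤ 2 * ((C * Real.log (Real.log D)) * Y) := by gcongr
      _ = (2 * C * Real.log (Real.log D)) * Y := by ring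
      _ ≤ (η / 10 * Real.log D) * Y := mul_le_mul_of_nonneg_right b2 hY0'
      _ ≤ (η / 10 * Real.log (d * Y : ℝ)) * Y := by gcongr
      _ = η / 10 * Y * Real.log (d * Y : ℝ) := by ring
  set η₁ : ℝ := 1 / Real.log D ^ (A + 1) with hη₁
  have hη₁0 : 0 ≤ η₁ := by positivity
  have hlp : Real.log (D : ℝ) ≤ Real.log (D : ℝ) ^ (A + 1) := le_self_pow₀ (by linarith) (by omega)
  have hη2 : η ^ 2 ≤ η := by nlinarith
  have hη₁2 : η₁ ≤ η / 2 := by
    rw [hη₁, div_le_iff₀ (by positivity)]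
    have e1 : 2 / η ≤ Real.log D := by
      refine le_trans ?_ hlogη
      apply div_le_div_of_nonneg_left (by norm_num) (by positivity) hη2
    rw [div_le_iff₀ hη0] at e1
    nlinarith
  have hKη : (K * δ) * η₁ ^ 2 ≤ η ^ 2 := by
    have e1 : (K : ℝ) * δ ≤ Real.log D ^ A := by nlinarith
    have e2 : (K * δ) * η₁ ^ 2 ≤ Real.log D ^ A * (1 / Real.log D ^ (A + 1)) ^ 2 :=
      mul_le_mul_of_nonneg_right e1 (by positivity)
    refine e2.trans ?_
    have e3 : Real.log (D : ℝ) ^ A * (1 / Real.log D ^ (A + 1)) ^ 2 = 1 / (Real.log D ^ A * Real.log D ^ 2) := by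
      rw [pow_succ (Real.log (D : ℝ)) A]
      field_simp
    rw [e3]
    have e4 : 1 / η ^ 2 ≤ Real.log (D : ℝ) ^ A * Real.log D ^ 2 := by
      have f1 : 1 / η ^ 2 ≤ Real.log (D : ℝ) := by
        refine le_trans ?_ hlogη
        apply div_le_div_of_nonneg_right (by norm_num) (by positivity)
      have f2 : Real.log (D : ℝ) ≤ Real.log D ^ 2 := by nlinarith
      have f3 : Real.log (D : ℝ) ^ 2 ≤ Real.log (D : ℝ) ^ A * Real.log D ^ 2 := by
        have : (0 : ℝ) ≤ Real.log (D : ℝ) ^ 2 := by positivity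
        nlinarith
      linarith
    rw [div_le_iff₀ (by positivity)] at e4 ⊢
    linarith
  have hreg := h2 d Y hd2 (hDY₀.trans hDYn) (hdD.trans hDYn) η₁ r2 r4
  have hcl : (Cl d).card = d.totient := card_Cl d hd1
  have hbig : 1 ≤ η * (K * δ) := by
    rw [div_le_iff₀ hη0] at hK
    linarith
  have hWc : 1 ≤ η * ((Cl d).card : ℝ) := by
    rw [hcl]
    rw [div_le_iff₀ hη0] at hφ
    linarith
  have hsys := sys_of_reg η η₁ δ K (Icc 1 Y) (Cl d) (fun a s => (a + s * d).Prime) hreg hη0 hη1 hδ0 hδ2 hη₁0 hη₁2 hKη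
    hbig hWc (nonempty_Icc.2 (by
      have : 1 ≤ Y := by
        have : (1 : ℝ) ≤ Y := by linarith
        exact_mod_cast this
      exact this))
  have hres := hlaw η δ K (Icc 1 Y) (Cl d) _ _ hηη hsys
  simp_rw [along_xi] at hres
  rw [Nat.card_Icc, Nat.add_sub_cancel] at hres
  exact hres

end Pool.Agent.Q145.CG
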