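import Pool.Agent.Q145.CG.Levy

set_option autoImplicit false
set_option maxHeartbeats 4000000

/-! # Empirical measures -/

namespace Pool.Agent.Q145.CG

open MeasureTheory ProbabilityTheory Set

open scoped Classical

variable {α : Type}

/-- the empirical measure -/
noncomputable def empM (W : Finset α) (X : α → ℝ) : Measure ℝ := (W.card : ENNReal)⁻¹ • ∑ n ∈ W, Measure.dirac (X n)

theorem empM_prob (W : Finset α) (hW : W.Nonempty) (X : α → ℝ) : IsProbabilityMeasure (empM W X) := by
  constructor
  unfold empM
  rw [Measure.smul_apply, Measure.finsetSum_apply]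
  simp only [measure_univ, Finset.sum_const, nsmul_eq_mul, mul_one, smul_eq_mul]
  apply ENNReal.inv_mul_cancel
  · exact_mod_cast (Finset.card_pos.2 hW).ne'
  · exact ENNReal.natCast_ne_top _

noncomputable def emp (W : Finset α) (hW : W.Nonempty) (X : α → ℝ) : ProbabilityMeasure ℝ := ⟨empM W X, empM_prob W hW X⟩

theorem empM_integrable {E : Type} [NormedAddCommGroup E] [NormedSpace ℝ E] (W : Finset α) (X : α → ℝ) (hW : W.Nonempty) (f : ℝ → E) :
    Integrable f (empM W X) := by
  unfold empM
  apply Integrable.smul_measure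
  · rw [integrable_finsetSum_measure]
    intro n _
    exact integrable_dirac (by simp)
  · apply ENNReal.inv_ne_top.2
    exact_mod_cast (Finset.card_pos.2 hW).ne'

theorem empM_integral {E : Type} [NormedAddCommGroup E] [NormedSpace ℝ E] [CompleteSpace E] (W : Finset α) (X : α → ℝ) (f : ℝ → E) :
    ∫ x, f x ∂(empM W X) = (W.card : ℝ)⁻¹ • ∑ n ∈ W, f (X n) := by
  unfold empM
  rw [integral_smul_measure, integral_finsetSum_measure]
  · simp only [integral_dirac]
    rw [ENNReal.toReal_inv, ENNReal.toReal_natCast]
  · intro n _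
    exact integrable_dirac (by simp)

theorem empM_Iic (W : Finset α) (X : α → ℝ) (x : ℝ) :
    (empM W X).real (Iic x) = (W.filter (fun n => X n ≤ x)).card / W.card := by
  unfold empM
  rw [Measure.real, Measure.smul_apply, Measure.finsetSum_apply, smul_eq_mul, ENNReal.toReal_mul, ENNReal.toReal_inv,
    ENNReal.toReal_natCast, inv_mul_eq_div]
  congr 1
  have h1 : ∀ n : α, (Measure.dirac (X n) : Measure ℝ) (Iic x) = if X n ≤ x then 1 else 0 := by
    intro n
    rw [Measure.dirac_apply' _ measurableSet_Iic, indicator_apply]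
    rfl
  simp_rw [h1]
  rw [← Finset.sum_filter, Finset.sum_const, nsmul_eq_mul, mul_one, ENNReal.toReal_natCast]

theorem empM_charFun (W : Finset α) (X : α → ℝ) (t : ℝ) :
    charFun (empM W X) t = (∑ n ∈ W, Complex.exp ((t * X n : ℝ) * Complex.I)) / W.card := by
  rw [charFun_apply_real, empM_integral]
  rw [Complex.real_smul, Complex.ofReal_inv, Complex.ofReal_natCast, inv_mul_eq_div]
  congr 1
  apply Finset.sum_congr rfl
  intro n _
  push_cast
  rfl

end Pool.Agent.Q145.CG
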