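import Pool.Agent.Q145.RA.All
import Mathlib.Analysis.Complex.Basic

set_option autoImplicit false
set_option maxHeartbeats 4000000

/-! # Products of functions of independent variables: the mean square -/

namespace Pool.Agent.Q145.CG

open Finset
open Pool.Agent.Q145.RA (seqs card_seqs)
open scoped ComplexConjugate

open scoped Classical

variable {α β : Type}

theorem pow_sub_le (x y : ℂ) (hx : ‖x‖ ≤ 1) (hy : ‖y‖ ≤ 1) (k : ℕ) : ‖x ^ k - y ^ k‖ ≤ k * ‖x - y‖ := by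
  induction k with
  | zero => simp
  | succ k ih =>
    have h1 : x ^ (k + 1) - y ^ (k + 1) = x * (x ^ k - y ^ k) + (x - y) * y ^ k := by ring
    rw [h1]
    refine (norm_add_le _ _).trans ?_
    rw [norm_mul, norm_mul, norm_pow]
    have h2 : ‖x‖ * ‖x ^ k - y ^ k‖ ≤ 1 * ‖x ^ k - y ^ k‖ := mul_le_mul_of_nonneg_right hx (norm_nonneg _)
    have h3 : ‖x - y‖ * ‖y‖ ^ k ≤ ‖x - y‖ * 1 :=
      mul_le_mul_of_nonneg_left (pow_le_one₀ (norm_nonneg _) hy) (norm_nonneg _)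
    push_cast
    linarith

/-- the sum over the sequences of a product -/
theorem sum_prod (S : Finset β) (k : ℕ) (g : β → ℂ) :
    ∑ s ∈ seqs S k, ∏ i : Fin k, g (s i) = (∑ a ∈ S, g a) ^ k := by
  unfold seqs
  rw [← Finset.prod_univ_sum (t := fun _ : Fin k => S) (f := fun _ a => g a), prod_const, card_univ, Fintype.card_fin]

/-- the mean of the products -/
noncomputable def av (W : Finset α) (w : α → β → ℂ) {k : ℕ} (s : Fin k → β) : ℂ :=
  (∑ n ∈ W, ∏ i : Fin k, w n (s i)) / W.card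

/-- **The mean square of the deviation of the mean of the products.** -/
theorem l2 (S : Finset β) (W : Finset α) (hS : S.Nonempty) (hW : W.Nonempty) (w : α → β → ℂ)
    (hw : ∀ n ∈ W, ∀ a ∈ S, ‖w n a‖ ≤ 1) (c η : ℝ) (hc0 : 0 ≤ c) (hc1 : c ≤ 1) (hη : 0 ≤ η) (k : ℕ)
    (h1 : ∀ n ∈ W, k * ‖(∑ a ∈ S, w n a) / S.card - c‖ ≤ η)
    (P : Finset (α × α)) (hP : (P.card : ℝ) ≤ η * (W.card : ℝ) ^ 2)
    (h2 : ∀ n ∈ W, ∀ m ∈ W, (n, m) ∉ P → k * ‖(∑ a ∈ S, w n a * conj (w m a)) / S.card - (c : ℂ) ^ 2‖ ≤ η) :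
    ∑ s ∈ seqs S k, ‖av W w s - (c : ℂ) ^ k‖ ^ 2 ≤ 5 * η * (S.card : ℝ) ^ k := by
  have hS0 : (0 : ℝ) < S.card := by exact_mod_cast card_pos.2 hS
  have hW0 : (0 : ℝ) < W.card := by exact_mod_cast card_pos.2 hW
  have hSc : (S.card : ℂ) ≠ 0 := by exact_mod_cast hS0.ne'
  have hWc : (W.card : ℂ) ≠ 0 := by exact_mod_cast hW0.ne'
  set N : ℝ := (S.card : ℝ) ^ k with hN
  have hN0 : 0 < N := by positivity
  set C : ℝ := c ^ k with hC
  have hC0 : 0 ≤ C := by positivity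
  have hC1 : C ≤ 1 := pow_le_one₀ hc0 hc1
  have hcn : ‖(c : ℂ)‖ ≤ 1 := by
    rw [Complex.norm_real, Real.norm_of_nonneg hc0]
    exact hc1
  have hc2n : ‖(c : ℂ) ^ 2‖ ≤ 1 := by
    rw [norm_pow]
    exact pow_le_one₀ (norm_nonneg _) hcn
  -- expansion of the square
  have e1 : ∀ s : Fin k → β, ‖av W w s - (c : ℂ) ^ k‖ ^ 2 =
      (av W w s * conj (av W w s)).re - 2 * C * (av W w s).re + C ^ 2 := by
    intro s
    have h3 : ((c : ℂ) ^ k) = ((C : ℝ) : ℂ) := by
      rw [hC]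
      push_cast
      rfl
    rw [h3, ← Complex.normSq_eq_norm_sq, Complex.mul_conj, Complex.normSq_apply, Complex.normSq_apply, Complex.ofReal_re]
    simp only [Complex.sub_re, Complex.sub_im, Complex.ofReal_re, Complex.ofReal_im]
    ring
  simp_rw [e1]
  rw [sum_add_distrib, sum_sub_distrib, ← mul_sum, sum_const, nsmul_eq_mul, card_seqs]
  -- the first moment
  have m1 : ∑ s ∈ seqs S k, (av W w s).re = (∑ n ∈ W, (∑ a ∈ S, w n a) ^ k / W.card).re := by
    rw [← Complex.re_sum]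
    congr 1
    unfold av
    simp_rw [sum_div]
    rw [sum_comm]
    apply sum_congr rfl
    intro n _
    rw [← sum_div, sum_prod]
  have m2 : ∑ s ∈ seqs S k, (av W w s * conj (av W w s)).re =
      (∑ n ∈ W, ∑ m ∈ W, (∑ a ∈ S, w n a * conj (w m a)) ^ k / (W.card : ℂ) ^ 2).re := by
    rw [← Complex.re_sum]
    congr 1
    have h3 : ∀ s : Fin k → β, av W w s * conj (av W w s) =
        ∑ n ∈ W, ∑ m ∈ W, (∏ i : Fin k, w n (s i) * conj (w m (s i))) / (W.card : ℂ) ^ 2 := by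
      intro s
      unfold av
      rw [map_div₀, map_natCast, map_sum, div_mul_div_comm, sum_mul_sum, sum_div, ← sq]
      apply sum_congr rfl
      intro n _
      rw [sum_div]
      apply sum_congr rfl
      intro m _
      rw [map_prod, prod_mul_distrib]
    simp_rw [h3]
    rw [sum_comm]
    apply sum_congr rfl
    intro n _
    rw [sum_comm]
    apply sum_congr rfl
    intro m _
    rw [← sum_div, sum_prod S k (fun a => w n a * conj (w m a))]
  rw [m1, m2]
  -- the sizes of the means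
  have b1 : ∀ n ∈ W, ‖(∑ a ∈ S, w n a) / (S.card : ℂ)‖ ≤ 1 := by
    intro n hn
    rw [norm_div, Complex.norm_natCast, div_le_one hS0]
    refine (norm_sum_le _ _).trans ((sum_le_sum fun a ha => hw n hn a ha).trans (le_of_eq ?_))
    rw [sum_const, nsmul_eq_mul, mul_one]
  have b2 : ∀ n ∈ W, ∀ m ∈ W, ‖(∑ a ∈ S, w n a * conj (w m a)) / (S.card : ℂ)‖ ≤ 1 := by
    intro n hn m hm
    rw [norm_div, Complex.norm_natCast, div_le_one hS0]
    refine (norm_sum_le _ _).trans ((sum_le_sum (g := fun _ => (1 : ℝ)) fun a ha => ?_).trans (le_of_eq ?_))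
    · rw [norm_mul, Complex.norm_conj]
      exact mul_le_one₀ (hw n hn a ha) (norm_nonneg _) (hw m hm a ha)
    · rw [sum_const, nsmul_eq_mul, mul_one]
  have hNC : ((S.card : ℂ) ^ k) = ((N : ℝ) : ℂ) := by
    rw [hN]
    push_cast
    rfl
  have f1 : ∀ n ∈ W, (C - η) * N ≤ ((∑ a ∈ S, w n a) ^ k).re := by
    intro n hn
    have h3 : (∑ a ∈ S, w n a) ^ k = ((∑ a ∈ S, w n a) / (S.card : ℂ)) ^ k * ((N : ℝ) : ℂ) := by
      rw [div_pow, ← hNC]
      field_simp
    rw [h3, Complex.re_mul_ofReal]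
    apply mul_le_mul_of_nonneg_right _ hN0.le
    have h4 := (pow_sub_le _ _ (b1 n hn) hcn k).trans (h1 n hn)
    have h5 := (abs_le.1 ((Complex.abs_re_le_norm _).trans h4)).1
    have h6 : ((c : ℂ) ^ k).re = C := by
      rw [hC, ← Complex.ofReal_pow, Complex.ofReal_re]
    rw [Complex.sub_re, h6] at h5
    linarith
  have f2 : ∀ n ∈ W, ∀ m ∈ W, ((∑ a ∈ S, w n a * conj (w m a)) ^ k).re ≤
      (C ^ 2 + η + if (n, m) ∈ P then 1 else 0) * N := by
    intro n hn m hm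
    have h3 : (∑ a ∈ S, w n a * conj (w m a)) ^ k =
        ((∑ a ∈ S, w n a * conj (w m a)) / (S.card : ℂ)) ^ k * ((N : ℝ) : ℂ) := by
      rw [div_pow, ← hNC]
      field_simp
    rw [h3, Complex.re_mul_ofReal]
    apply mul_le_mul_of_nonneg_right _ hN0.le
    split_ifs with h
    · have h4 : (((∑ a ∈ S, w n a * conj (w m a)) / (S.card : ℂ)) ^ k).re ≤ 1 := by
        refine (Complex.re_le_norm _).trans ?_
        rw [norm_pow]
        exact pow_le_one₀ (norm_nonneg _) (b2 n hn m hm)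
      have := sq_nonneg C
      linarith
    · have h4 := (pow_sub_le _ _ (b2 n hn m hm) hc2n k).trans (h2 n hn m hm h)
      have h5 := (abs_le.1 ((Complex.abs_re_le_norm _).trans h4)).2
      have h6 : (((c : ℂ) ^ 2) ^ k).re = C ^ 2 := by
        rw [hC, ← pow_mul, mul_comm 2 k, pow_mul, ← Complex.ofReal_pow, ← Complex.ofReal_pow, Complex.ofReal_re]
      rw [Complex.sub_re, h6] at h5
      linarith
  have g1 : (C - η) * N ≤ (∑ n ∈ W, (∑ a ∈ S, w n a) ^ k / (W.card : ℂ)).re := by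
    rw [← sum_div]
    have h3 : ((∑ n ∈ W, (∑ a ∈ S, w n a) ^ k) / (W.card : ℂ)).re = (∑ n ∈ W, ((∑ a ∈ S, w n a) ^ k).re) / W.card := by
      rw [← Complex.re_sum]
      have : (W.card : ℂ) = (((W.card : ℝ)) : ℂ) := by push_cast; rfl
      rw [this, Complex.div_ofReal_re]
    rw [h3, le_div_iff₀ hW0]
    calc (C - η) * N * W.card = ∑ _n ∈ W, (C - η) * N := by rw [sum_const, nsmul_eq_mul, mul_comm]
      _ ≤ _ := sum_le_sum f1
  have g2 : (∑ n ∈ W, ∑ m ∈ W, (∑ a ∈ S, w n a * conj (w m a)) ^ k / (W.card : ℂ) ^ 2).re ≤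
      (C ^ 2 + 2 * η) * N := by
    simp_rw [← sum_div]
    have h3 : ((∑ n ∈ W, ∑ m ∈ W, (∑ a ∈ S, w n a * conj (w m a)) ^ k) / (W.card : ℂ) ^ 2).re =
        (∑ n ∈ W, ∑ m ∈ W, ((∑ a ∈ S, w n a * conj (w m a)) ^ k).re) / (W.card : ℝ) ^ 2 := by
      have : (W.card : ℂ) ^ 2 = ((((W.card : ℝ)) ^ 2 : ℝ) : ℂ) := by push_cast; rfl
      rw [this, Complex.div_ofReal_re, Complex.re_sum]
      congr 1
      apply sum_congr rfl
      intro n _
      rw [Complex.re_sum]
    rw [h3, div_le_iff₀ (by positivity)]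
    calc ∑ n ∈ W, ∑ m ∈ W, ((∑ a ∈ S, w n a * conj (w m a)) ^ k).re
        ≤ ∑ n ∈ W, ∑ m ∈ W, (C ^ 2 + η + if (n, m) ∈ P then 1 else 0) * N :=
          sum_le_sum fun n hn => sum_le_sum fun m hm => f2 n hn m hm
      _ = ((C ^ 2 + η) * (W.card : ℝ) ^ 2 + ∑ n ∈ W, ∑ m ∈ W, (if (n, m) ∈ P then (1 : ℝ) else 0)) * N := by
          simp_rw [← sum_mul, sum_add_distrib, sum_const, nsmul_eq_mul]
          ring
      _ ≤ ((C ^ 2 + η) * (W.card : ℝ) ^ 2 + η * (W.card : ℝ) ^ 2) * N := by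
          apply mul_le_mul_of_nonneg_right _ hN0.le
          apply add_le_add_right
          refine le_trans ?_ hP
          rw [← sum_product (s := W) (t := W) (f := fun x => if x ∈ P then (1 : ℝ) else 0), ← sum_filter, sum_const,
            nsmul_eq_mul, mul_one]
          apply Nat.cast_le.2
          apply card_le_card
          intro x hx
          exact (mem_filter.1 hx).2
      _ = (C ^ 2 + 2 * η) * N * (W.card : ℝ) ^ 2 := by ring
  have hcast : (((S.card ^ k : ℕ)) : ℝ) = N := by rw [hN]; push_cast; rfl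
  rw [hcast]
  have h5 : 2 * C * ((C - η) * N) ≤ 2 * C * (∑ n ∈ W, (∑ a ∈ S, w n a) ^ k / (W.card : ℂ)).re :=
    mul_le_mul_of_nonneg_left g1 (by positivity)
  have h6 : 0 ≤ η * N := by positivity
  have h7 : C * (η * N) ≤ η * N := by nlinarith
  nlinarith

end Pool.Agent.Q145.CG
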