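import Pool.Agent.Q145.CG.Sys
import Pool.Agent.Q145.CG.Emp

set_option autoImplicit false
set_option maxHeartbeats 4000000

/-! # The normal law for sums along random sequences -/

namespace Pool.Agent.Q145.CG

open Finset Filter MeasureTheory ProbabilityTheory
open Pool.Agent.Q145.RA (seqs card_seqs)

open scoped Classical

variable {α β : Type}

/-- **The normal law** for the values `f n`, `n ∈ W`, with variance `r²` -/
def GLaw (ε r : ℝ) (W : Finset α) (f : α → ℝ) : Prop :=
  (∀ x : ℝ, |((W.filter (fun n => f n ≤ x * r)).card : ℝ) - (gaussianReal 0 1).real (Set.Iic x) * W.card| ≤ ε * W.card) ∧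
  |∑ n ∈ W, f n ^ 2 - r ^ 2 * W.card| ≤ ε * (r ^ 2 * W.card)

theorem er_tendsto (t : ℝ) : Tendsto (fun η : ℝ => er t η) (nhdsWithin 0 (Set.Ioi 0)) (nhds 0) := by
  unfold er
  have h1 : Tendsto (fun η : ℝ => 21 * (1 + |t|) ^ 3 * Real.sqrt η) (nhds 0) (nhds (21 * (1 + |t|) ^ 3 * Real.sqrt 0)) :=
    (Real.continuous_sqrt.tendsto 0).const_mul _
  rw [Real.sqrt_zero, mul_zero] at h1
  exact h1.mono_left nhdsWithin_le_nhds

/-- Chebyshev -/
theorem cheb {γ : Type} (U : Finset γ) (g : γ → ℝ) (hg : ∀ s ∈ U, 0 ≤ g s) (c B : ℝ) (hc : 0 < c) (h : ∑ s ∈ U, g s ≤ B) :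
    ((U.filter (fun s => c < g s)).card : ℝ) ≤ B / c := by
  rw [le_div_iff₀ hc]
  calc ((U.filter (fun s => c < g s)).card : ℝ) * c = ∑ _s ∈ U.filter (fun s => c < g s), c := by
        rw [sum_const, nsmul_eq_mul]
    _ ≤ ∑ s ∈ U.filter (fun s => c < g s), g s := sum_le_sum fun s hs => (mem_filter.1 hs).2.le
    _ ≤ ∑ s ∈ U, g s := sum_le_sum_of_subset_of_nonneg (filter_subset _ _) fun s hs _ => hg s hs
    _ ≤ B := h

theorem glaw (ε : ℝ) (hε : 0 < ε) (hε1 : ε ≤ 1) : ∃ η₀ : ℝ, 0 < η₀ ∧ ∀ (η q : ℝ) (K : ℕ) (S : Finset β) (W : Finset α)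
    (x : α → β → ℝ) (P : Finset (α × α)), η ≤ η₀ → Sys η q K S W x P →
    (((seqs S K).filter (fun s => ¬ GLaw ε (Real.sqrt (K * q)) W (fun n => along (x n) s))).card : ℝ) ≤
      ε * (S.card : ℝ) ^ K := by
  -- the constants
  set lam : ℝ := 100 / ε ^ 2 with hlam
  have hlam0 : 0 < lam := by positivity
  set ε₁ : ℝ := ε ^ 2 / 16 with hε₁
  have hε₁0 : 0 < ε₁ := by positivity
  have hε₁ε : ε₁ ≤ ε := by rw [hε₁]; nlinarith
  obtain ⟨ηc, hηc, T, hT⟩ := gauss_close (1 + lam) ε₁ (by positivity) hε₁0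
  -- the size of η₀
  have hev : ∀ᶠ η : ℝ in nhdsWithin 0 (Set.Ioi 0), (∑ t ∈ T, 5 * er t η / ηc ^ 2 < ε ^ 2 / 32) ∧
      (∀ t ∈ T, 4 * (1 + t ^ 2) * η < 1) ∧ η < ε ^ 2 / 100 := by
    have a1 : Tendsto (fun η : ℝ => ∑ t ∈ T, 5 * er t η / ηc ^ 2) (nhdsWithin 0 (Set.Ioi 0)) (nhds 0) := by
      have h0 : Tendsto (fun η : ℝ => ∑ t ∈ T, 5 * er t η / ηc ^ 2) (nhdsWithin 0 (Set.Ioi 0))
          (nhds (∑ _t ∈ T, (5 * 0 / ηc ^ 2 : ℝ))) := tendsto_finsetSum _ fun t _ => ((er_tendsto t).const_mul 5).div_const _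
      rwa [show (∑ _t ∈ T, (5 * 0 / ηc ^ 2 : ℝ)) = 0 by simp] at h0
    have a2 : ∀ t ∈ T, ∀ᶠ η : ℝ in nhdsWithin 0 (Set.Ioi 0), 4 * (1 + t ^ 2) * η < 1 := by
      intro t _
      have : Tendsto (fun η : ℝ => 4 * (1 + t ^ 2) * η) (nhds 0) (nhds (4 * (1 + t ^ 2) * 0)) := tendsto_id.const_mul _
      rw [mul_zero] at this
      exact (this.mono_left nhdsWithin_le_nhds).eventually (gt_mem_nhds one_pos)
    have a3 : ∀ᶠ η : ℝ in nhdsWithin 0 (Set.Ioi 0), η < ε ^ 2 / 100 :=
      nhdsWithin_le_nhds (gt_mem_nhds (show (0 : ℝ) < ε ^ 2 / 100 by positivity))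
    exact (a1.eventually (gt_mem_nhds (show (0 : ℝ) < ε ^ 2 / 32 by positivity))).and
      (((eventually_all_finset T).2 a2).and a3)
  rw [eventually_nhdsWithin_iff, Metric.eventually_nhds_iff] at hev
  obtain ⟨η₀, hη₀, hev⟩ := hev
  refine ⟨η₀ / 2, by positivity, fun η q K S W x P hηη hs => ?_⟩
  have hs' := hs
  obtain ⟨e0, e1, q0, q1, big, bd, mean, var, cov, pc, s0, w0⟩ := hs
  obtain ⟨v1, v2, v3⟩ := hev (y := η) (by
    rw [Real.dist_eq, sub_zero, abs_of_pos e0]
    linarith) e0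
  have hS0 : (0 : ℝ) < S.card := by exact_mod_cast card_pos.2 s0
  have hW0 : (0 : ℝ) < W.card := by exact_mod_cast card_pos.2 w0
  have hKq : 0 < (K : ℝ) * q := by
    by_contra h
    have : η * (K * q) ≤ 0 := mul_nonpos_of_nonneg_of_nonpos e0.le (not_lt.1 h)
    linarith
  set r : ℝ := Real.sqrt (K * q) with hr
  have hr2 : r ^ 2 = K * q := Real.sq_sqrt hKq.le
  have hr0 : 0 < r := Real.sqrt_pos.2 hKq
  set N : ℝ := (S.card : ℝ) ^ K with hN
  have hN0 : 0 < N := by positivity
  have hcardU : ((seqs S K).card : ℝ) = N := by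
    rw [card_seqs]
    push_cast
    rfl
  -- the normalised second moment
  set V : (Fin K → β) → ℝ := fun s => (∑ n ∈ W, along (x n) s ^ 2) / (r ^ 2 * W.card) with hV
  have hV0 : ∀ s, 0 ≤ V s := fun s => by
    rw [hV]
    positivity
  have hEV : ∑ s ∈ seqs S K, V s ≤ (1 + 2 * η) * N := by
    rw [hV]
    simp only
    rw [← sum_div, sum_comm, div_le_iff₀ (by positivity)]
    calc ∑ n ∈ W, ∑ s ∈ seqs S K, along (x n) s ^ 2 ≤ ∑ _n ∈ W, (1 + 2 * η) * (K * q) * (S.card : ℝ) ^ K := by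
          apply sum_le_sum
          intro n hn
          apply second_le S s0 (x n) K q η q0.le e0.le e1 (mean n hn)
          have := (abs_le.1 (var n hn)).2
          linarith
      _ = (1 + 2 * η) * N * (r ^ 2 * W.card) := by
          rw [sum_const, nsmul_eq_mul, hr2]
          ring
  -- the normalised values
  set X : (Fin K → β) → α → ℝ := fun s n => along (x n) s / r with hX
  have hchar : ∀ (t : ℝ) (s : Fin K → β), charFun (empM W (X s)) t =
      av W (fun n a => Complex.exp ((t / r * x n a : ℝ) * Complex.I)) s := by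
    intro t s
    rw [empM_charFun]
    unfold av
    congr 1
    apply sum_congr rfl
    intro n _
    rw [← Complex.exp_sum]
    congr 1
    rw [← sum_mul]
    congr 1
    rw [hX]
    unfold along
    rw [← Complex.ofReal_sum, ← mul_sum]
    congr 1
    ring
  have hVX : ∀ s : Fin K → β, ∫ y, y ^ 2 ∂(empM W (X s)) = V s := by
    intro s
    rw [empM_integral, hV, hX]
    simp only [div_pow, smul_eq_mul]
    rw [← sum_div]
    field_simp
  -- the bad sets
  set B1 := (seqs S K).filter (fun s => lam < V s) with hB1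
  set B2 : ℝ → Finset (Fin K → β) := fun t => (seqs S K).filter (fun s => ηc ^ 2 <
    ‖av W (fun n a => Complex.exp ((t / r * x n a : ℝ) * Complex.I)) s - (Real.exp (-(t ^ 2 / 2)) : ℝ)‖ ^ 2) with hB2
  have c1 : (B1.card : ℝ) ≤ 3 * ε ^ 2 / 100 * N := by
    have := cheb (seqs S K) V (fun s _ => hV0 s) lam ((1 + 2 * η) * N) hlam0 hEV
    refine this.trans ?_
    rw [div_le_iff₀ hlam0, hlam]
    have f1 : 3 * ε ^ 2 / 100 * N * (100 / ε ^ 2) = 3 * N := by
      field_simp
    rw [f1]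
    apply mul_le_mul_of_nonneg_right _ hN0.le
    linarith
  have c2 : ∀ t ∈ T, ((B2 t).card : ℝ) ≤ 5 * er t η / ηc ^ 2 * N := by
    intro t ht
    have h1 := char_law η q K S W x P hs' t (v2 t ht).le
    have h2 := cheb (seqs S K) _ (fun s _ => by positivity) (ηc ^ 2) _ (by positivity) h1
    refine h2.trans (le_of_eq ?_)
    ring
  set Bd := B1 ∪ T.biUnion B2 with hBd
  have hBdsub : Bd ⊆ seqs S K := by
    rw [hBd]
    apply union_subset (filter_subset _ _)
    intro s hs
    obtain ⟨t, _, h1⟩ := mem_biUnion.1 hs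
    exact (mem_filter.1 h1).1
  have cBd : (Bd.card : ℝ) ≤ (3 * ε ^ 2 / 100 + ε ^ 2 / 32) * N := by
    have h1 : (Bd.card : ℝ) ≤ B1.card + ∑ t ∈ T, ((B2 t).card : ℝ) := by
      have := (card_union_le B1 (T.biUnion B2)).trans (Nat.add_le_add_left card_biUnion_le _)
      exact_mod_cast this
    have h2 : ∑ t ∈ T, ((B2 t).card : ℝ) ≤ ε ^ 2 / 32 * N := by
      refine (sum_le_sum c2).trans ?_
      rw [← sum_mul]
      exact mul_le_mul_of_nonneg_right v1.le hN0.le
    linarith
  -- outside the bad sets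
  have good : ∀ s ∈ seqs S K, s ∉ Bd → (∀ y : ℝ, |(empM W (X s)).real (Set.Iic y) - (gaussianReal 0 1).real (Set.Iic y)| ≤ ε₁) ∧
      1 - ε₁ ≤ V s := by
    intro s hs hsB
    rw [hBd, mem_union, not_or] at hsB
    obtain ⟨g1, g2⟩ := hsB
    have hVl : V s ≤ lam := by
      by_contra h
      exact g1 (mem_filter.2 ⟨hs, not_le.1 h⟩)
    have hI2 : Integrable (fun y : ℝ => y ^ 2) (empM W (X s)) := empM_integrable W (X s) w0 _
    have hI1 : Integrable (fun y : ℝ => y) (empM W (X s)) := empM_integrable W (X s) w0 _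
    have h3 := hT (emp W w0 (X s)) hI1 hI2 (by
      have hp := empM_prob W w0 (X s)
      calc ∫ y, |y| ∂(empM W (X s)) ≤ ∫ y, (1 + y ^ 2) ∂(empM W (X s)) := by
            apply integral_mono hI1.abs ((integrable_const _).add hI2)
            intro y
            show |y| ≤ 1 + y ^ 2
            rw [← sq_abs y]
            nlinarith [sq_nonneg (|y| - 1), abs_nonneg y]
        _ = 1 + V s := by
            rw [integral_add (integrable_const _) hI2, hVX, integral_const, smul_eq_mul, mul_one]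
            simp
        _ ≤ 1 + lam := by linarith) (by
      intro t ht
      have h4 : s ∉ B2 t := fun h => g2 (mem_biUnion.2 ⟨t, ht, h⟩)
      have h5 : ‖av W (fun n a => Complex.exp ((t / r * x n a : ℝ) * Complex.I)) s - (Real.exp (-(t ^ 2 / 2)) : ℝ)‖ ^ 2 ≤
          ηc ^ 2 := by
        by_contra h
        exact h4 (mem_filter.2 ⟨hs, not_le.1 h⟩)
      have h6 := (pow_le_pow_iff_left₀ (norm_nonneg _) hηc.le (by norm_num)).1 h5
      show ‖charFun (empM W (X s)) t - Complex.exp (-(t : ℂ) ^ 2 / 2)‖ ≤ ηc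
      rw [hchar]
      have h7 : Complex.exp (-(t : ℂ) ^ 2 / 2) = ((Real.exp (-(t ^ 2 / 2)) : ℝ) : ℂ) := by
        push_cast
        congr 1
        ring
      rw [h7]
      exact h6)
    have h8 : 1 - ε₁ ≤ ∫ y, y ^ 2 ∂(empM W (X s)) := h3.2
    rw [hVX] at h8
    exact ⟨h3.1, h8⟩
  -- large second moments
  set A := (seqs S K).filter (fun s => s ∉ Bd ∧ 1 + ε < V s) with hA
  have cA : (A.card : ℝ) ≤ ε / 2 * N := by
    have hG : ((seqs S K).filter (fun s => s ∉ Bd)).card = (seqs S K).card - Bd.card := by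
      rw [← card_sdiff_of_subset hBdsub]
      congr 1
      ext s
      rw [mem_filter, Finset.mem_sdiff]
    have hGr : (((seqs S K).filter (fun s => s ∉ Bd)).card : ℝ) = N - Bd.card := by
      rw [hG, Nat.cast_sub (card_le_card hBdsub), hcardU]
    have h1 : (1 - ε₁) * (((seqs S K).filter (fun s => s ∉ Bd)).card : ℝ) + ε * A.card ≤ ∑ s ∈ seqs S K, V s := by
      have h2 : ∑ s ∈ (seqs S K).filter (fun s => s ∉ Bd), ((1 - ε₁) + if 1 + ε < V s then ε else 0) ≤
          ∑ s ∈ (seqs S K).filter (fun s => s ∉ Bd), V s := by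
        apply sum_le_sum
        intro s hs
        obtain ⟨g1, g2⟩ := mem_filter.1 hs
        have g3 := (good s g1 g2).2
        split_ifs with h
        · linarith
        · linarith
      have h3 : ∑ s ∈ (seqs S K).filter (fun s => s ∉ Bd), V s ≤ ∑ s ∈ seqs S K, V s :=
        sum_le_sum_of_subset_of_nonneg (filter_subset _ _) fun s _ _ => hV0 s
      refine le_trans (le_of_eq ?_) (h2.trans h3)
      rw [sum_add_distrib, sum_const, nsmul_eq_mul, ← sum_filter, sum_const, nsmul_eq_mul, filter_filter, mul_comm]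
      congr 1
      rw [mul_comm]
    rw [hGr] at h1
    have h2 := h1.trans hEV
    have h3 : ε * (A.card : ℝ) ≤ (ε ^ 2 / 2) * N := by
      have f1 : (1 - ε₁) * (Bd.card : ℝ) ≤ 1 * (Bd.card : ℝ) :=
        mul_le_mul_of_nonneg_right (by linarith) (Nat.cast_nonneg _)
      have f2 : (1 - ε₁) * (N - Bd.card) = (1 - ε₁) * N - (1 - ε₁) * Bd.card := by ring
      have f3 : η * N ≤ ε ^ 2 / 100 * N := mul_le_mul_of_nonneg_right v3.le hN0.le
      have f4 : 0 < ε ^ 2 * N := by positivity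
      rw [f2] at h2
      rw [hε₁] at h2 f1
      linarith
    have h4 : ε * (A.card : ℝ) ≤ ε * (ε / 2 * N) := by
      refine h3.trans (le_of_eq ?_)
      ring
    exact le_of_mul_le_mul_left h4 hε
  -- conclusion
  have hsub : (seqs S K).filter (fun s => ¬ GLaw ε r W (fun n => along (x n) s)) ⊆ Bd ∪ A := by
    intro s hs
    obtain ⟨g1, g2⟩ := mem_filter.1 hs
    by_contra h
    rw [mem_union, not_or] at h
    obtain ⟨g3, g4⟩ := h
    apply g2
    obtain ⟨g5, g6⟩ := good s g1 g3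
    have g7 : V s ≤ 1 + ε := by
      by_contra h
      exact g4 (mem_filter.2 ⟨g1, g3, not_le.1 h⟩)
    constructor
    · intro y
      have h1 := g5 y
      rw [empM_Iic] at h1
      have h2 : (W.filter (fun n => X s n ≤ y)) = W.filter (fun n => along (x n) s ≤ y * r) := by
        apply filter_congr
        intro n _
        rw [hX]
        exact div_le_iff₀ hr0
      rw [h2] at h1
      have h3 : ((W.filter (fun n => along (x n) s ≤ y * r)).card : ℝ) - (gaussianReal 0 1).real (Set.Iic y) * W.card =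
          (((W.filter (fun n => along (x n) s ≤ y * r)).card : ℝ) / W.card - (gaussianReal 0 1).real (Set.Iic y)) * W.card := by
        field_simp
      rw [h3, abs_mul, abs_of_pos hW0]
      exact mul_le_mul_of_nonneg_right (h1.trans hε₁ε) hW0.le
    · have h1 : ∑ n ∈ W, along (x n) s ^ 2 - r ^ 2 * W.card = (V s - 1) * (r ^ 2 * W.card) := by
        rw [hV]
        field_simp
      rw [h1, abs_mul, abs_of_pos (show 0 < r ^ 2 * (W.card : ℝ) by positivity)]
      apply mul_le_mul_of_nonneg_right _ (by positivity)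
      rw [abs_le]
      constructor <;> linarith
  have hfin : (((seqs S K).filter (fun s => ¬ GLaw ε r W (fun n => along (x n) s))).card : ℝ) ≤ Bd.card + A.card := by
    exact_mod_cast (card_le_card hsub).trans (card_union_le _ _)
  refine hfin.trans ?_
  have hεN : ε ^ 2 * N ≤ ε * N := by
    apply mul_le_mul_of_nonneg_right _ hN0.le
    nlinarith
  have : 0 < ε * N := by positivity
  linarith

end Pool.Agent.Q145.CG
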