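import Mathlib

set_option autoImplicit false
set_option maxHeartbeats 4000000

/-! # Closeness to the normal law from finitely many values of the characteristic function -/

namespace Pool.Agent.Q145.CG

open MeasureTheory ProbabilityTheory Filter Set
open scoped Topology

/-- the standard normal law -/
noncomputable def gam : ProbabilityMeasure ℝ := ⟨gaussianReal 0 1, inferInstance⟩

theorem charFun_gam (t : ℝ) : charFun (gam : Measure ℝ) t = Complex.exp (-(t : ℂ) ^ 2 / 2) := by
  show charFun (gaussianReal 0 1) t = _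
  rw [charFun_gaussianReal]
  congr 1
  simp
  ring

/-- the characteristic function is Lipschitz -/
theorem charFun_lip (m : ℝ) (ν : Measure ℝ) [IsProbabilityMeasure ν] (hi : Integrable (fun x : ℝ => x) ν)
    (hm : ∫ x, |x| ∂ν ≤ m) (t u : ℝ) : ‖charFun ν t - charFun ν u‖ ≤ m * |t - u| := by
  rw [charFun_apply_real, charFun_apply_real]
  have hint : ∀ c : ℝ, Integrable (fun x : ℝ => Complex.exp (c * x * Complex.I)) ν := by
    intro c
    refine (integrable_const (1 : ℝ)).mono' (by fun_prop) (ae_of_all _ fun x => ?_)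
    have : (c : ℂ) * x * Complex.I = ((c * x : ℝ) : ℂ) * Complex.I := by push_cast; ring
    rw [this, Complex.norm_exp_ofReal_mul_I]
  rw [← integral_sub (hint t) (hint u)]
  refine (norm_integral_le_integral_norm _).trans ?_
  have h1 : ∀ x : ℝ, ‖Complex.exp (t * x * Complex.I) - Complex.exp (u * x * Complex.I)‖ ≤ |t - u| * |x| := by
    intro x
    have e1 : Complex.exp (t * x * Complex.I) - Complex.exp (u * x * Complex.I) =
        Complex.exp (((u * x : ℝ) : ℂ) * Complex.I) * (Complex.exp (Complex.I * (((t - u) * x : ℝ) : ℂ)) - 1) := by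
      rw [mul_sub, mul_one, ← Complex.exp_add]
      congr 2
      · push_cast
        ring
      · push_cast
        ring
    rw [e1, norm_mul, Complex.norm_exp_ofReal_mul_I, one_mul]
    refine (Real.norm_exp_I_mul_ofReal_sub_one_le).trans ?_
    rw [Real.norm_eq_abs, abs_mul]
  calc ∫ x, ‖Complex.exp (t * x * Complex.I) - Complex.exp (u * x * Complex.I)‖ ∂ν ≤ ∫ x, |t - u| * |x| ∂ν := by
        apply integral_mono_ae
        · exact ((hint t).sub (hint u)).norm
        · exact hi.abs.const_mul _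
        · exact ae_of_all _ h1
    _ = |t - u| * ∫ x, |x| ∂ν := integral_const_mul _ _
    _ ≤ |t - u| * m := mul_le_mul_of_nonneg_left hm (abs_nonneg _)
    _ = _ := mul_comm _ _

/-- **Closeness in the weak topology.** -/
theorem levy (m : ℝ) (hm : 0 ≤ m) (U : Set (ProbabilityMeasure ℝ)) (hU : U ∈ 𝓝 gam) : ∃ η : ℝ, 0 < η ∧ ∃ T : Finset ℝ,
    ∀ ν : ProbabilityMeasure ℝ, Integrable (fun x : ℝ => x) (ν : Measure ℝ) → ∫ x, |x| ∂(ν : Measure ℝ) ≤ m →
    (∀ t ∈ T, ‖charFun (ν : Measure ℝ) t - Complex.exp (-(t : ℂ) ^ 2 / 2)‖ ≤ η) → ν ∈ U := by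
  by_contra hcon
  push Not at hcon
  have h0 : ∀ N : ℕ, ∃ ν : ProbabilityMeasure ℝ, Integrable (fun x : ℝ => x) (ν : Measure ℝ) ∧
      ∫ x, |x| ∂(ν : Measure ℝ) ≤ m ∧
      (∀ t ∈ (Finset.Icc (-((N : ℤ) + 1) ^ 2) (((N : ℤ) + 1) ^ 2)).image (fun j : ℤ => (j : ℝ) / (N + 1)),
        ‖charFun (ν : Measure ℝ) t - Complex.exp (-(t : ℂ) ^ 2 / 2)‖ ≤ 1 / (N + 1)) ∧ ν ∉ U :=
    fun N => hcon (1 / (N + 1)) (by positivity) _
  choose ν h1 h2 h3 h4 using h0
  have hlim : Tendsto ν atTop (𝓝 gam) := by
    rw [ProbabilityMeasure.tendsto_iff_tendsto_charFun]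
    intro t
    rw [charFun_gam]
    -- the grid points
    set u : ℕ → ℝ := fun N => (⌊t * (N + 1)⌋ : ℝ) / (N + 1) with hu
    have hu1 : ∀ N : ℕ, |t - u N| ≤ 1 / (N + 1) := by
      intro N
      have hN : (0 : ℝ) < N + 1 := by positivity
      have e1 := Int.floor_le (t * (N + 1))
      have e2 := Int.lt_floor_add_one (t * (N + 1))
      have e3 : t - u N = (t * (N + 1) - ⌊t * (N + 1)⌋) / (N + 1) := by
        rw [hu]
        field_simp
      rw [e3, abs_div, abs_of_pos hN, abs_of_nonneg (by linarith)]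
      apply div_le_div_of_nonneg_right _ hN.le
      linarith
    have hut : Tendsto u atTop (𝓝 t) := by
      rw [tendsto_iff_norm_sub_tendsto_zero]
      refine squeeze_zero (fun _ => norm_nonneg _) (fun N => ?_) tendsto_one_div_add_atTop_nhds_zero_nat
      rw [Real.norm_eq_abs, abs_sub_comm]
      exact hu1 N
    have hexp : Tendsto (fun N => Complex.exp (-((u N : ℝ) : ℂ) ^ 2 / 2)) atTop (𝓝 (Complex.exp (-(t : ℂ) ^ 2 / 2))) := by
      have hc : Continuous (fun x : ℝ => Complex.exp (-(x : ℂ) ^ 2 / 2)) := by fun_prop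
      exact (hc.tendsto t).comp hut
    have hdiff : Tendsto (fun N => charFun (ν N : Measure ℝ) t - Complex.exp (-((u N : ℝ) : ℂ) ^ 2 / 2)) atTop (𝓝 0) := by
      rw [tendsto_zero_iff_norm_tendsto_zero]
      have hz : Tendsto (fun N : ℕ => (m + 1) * (1 / ((N : ℝ) + 1))) atTop (𝓝 0) := by
        have := (tendsto_one_div_add_atTop_nhds_zero_nat (𝕜 := ℝ)).const_mul (m + 1)
        rwa [mul_zero] at this
      refine squeeze_zero' (Eventually.of_forall fun _ => norm_nonneg _) ?_ hz
      filter_upwards [eventually_ge_atTop ⌈|t|⌉₊] with N hN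
      have hNt : |t| ≤ N := (Nat.le_ceil _).trans (by exact_mod_cast hN)
      have hN0 : (0 : ℝ) < N + 1 := by positivity
      have e1 : ‖charFun (ν N : Measure ℝ) t - charFun (ν N : Measure ℝ) (u N)‖ ≤ m * (1 / ((N : ℝ) + 1)) :=
        (charFun_lip m _ (h1 N) (h2 N) t (u N)).trans (mul_le_mul_of_nonneg_left (hu1 N) hm)
      have e2 : ‖charFun (ν N : Measure ℝ) (u N) - Complex.exp (-((u N : ℝ) : ℂ) ^ 2 / 2)‖ ≤ 1 / ((N : ℝ) + 1) := by
        apply h3 N (u N)
        rw [Finset.mem_image]
        refine ⟨⌊t * (N + 1)⌋, Finset.mem_Icc.2 ⟨?_, ?_⟩, rfl⟩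
        · rw [Int.le_floor]
          push_cast
          have := (abs_le.1 hNt).1
          nlinarith
        · have e3 := Int.floor_le (t * (N + 1))
          have e4 : (⌊t * (N + 1)⌋ : ℝ) ≤ ((N : ℝ) + 1) ^ 2 := by
            have := (abs_le.1 hNt).2
            nlinarith
          exact_mod_cast e4
      calc ‖charFun (ν N : Measure ℝ) t - Complex.exp (-((u N : ℝ) : ℂ) ^ 2 / 2)‖ ≤
          ‖charFun (ν N : Measure ℝ) t - charFun (ν N : Measure ℝ) (u N)‖ +
          ‖charFun (ν N : Measure ℝ) (u N) - Complex.exp (-((u N : ℝ) : ℂ) ^ 2 / 2)‖ := norm_sub_le_norm_sub_add_norm_sub _ _ _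
        _ ≤ m * (1 / ((N : ℝ) + 1)) + 1 / ((N : ℝ) + 1) := add_le_add e1 e2
        _ = _ := by ring
    have := hdiff.add hexp
    rw [zero_add] at this
    refine this.congr fun N => ?_
    ring
  obtain ⟨N, hN⟩ := (hlim.eventually hU).exists
  exact h4 N hN

/-- the distribution function of the normal law is Lipschitz -/
theorem cdf_lip (x y : ℝ) (hxy : x ≤ y) : (gaussianReal 0 1).real (Iic y) ≤ (gaussianReal 0 1).real (Iic x) + (y - x) := by
  have h1 : Iic y = Iic x ∪ Ioc x y := (Iic_union_Ioc_eq_Iic hxy).symm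
  have h2 : (gaussianReal 0 1).real (Ioc x y) ≤ y - x := by
    rw [Measure.real, gaussianReal_apply_eq_integral 0 (by norm_num), ENNReal.toReal_ofReal]
    · calc ∫ z in Ioc x y, gaussianPDFReal 0 1 z ≤ ∫ _z in Ioc x y, (1 : ℝ) := by
            apply integral_mono_ae (integrable_gaussianPDFReal 0 1).integrableOn (integrable_const _)
            refine ae_of_all _ fun z => ?_
            rw [gaussianPDFReal_def]
            have e1 : (Real.sqrt (2 * Real.pi * ((1 : NNReal) : ℝ)))⁻¹ ≤ 1 := by
              apply inv_le_one_of_one_le₀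
              rw [Real.one_le_sqrt]
              have := Real.pi_gt_three
              rw [NNReal.coe_one]
              linarith
            have e2 : Real.exp (-(z - 0) ^ 2 / (2 * ((1 : NNReal) : ℝ))) ≤ 1 := by
              apply Real.exp_le_one_iff.2
              rw [NNReal.coe_one]
              have := sq_nonneg (z - 0)
              linarith
            exact mul_le_one₀ e1 (Real.exp_pos _).le e2
        _ = y - x := by
            rw [integral_const, smul_eq_mul, mul_one, Measure.real, Measure.restrict_apply_univ, Real.volume_Ioc,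
              ENNReal.toReal_ofReal (by linarith)]
    · exact integral_nonneg fun z => gaussianPDFReal_nonneg _ _ _
  rw [h1]
  refine (measureReal_union_le _ _).trans ?_
  linarith

/-- neighbourhoods from the distribution function -/
theorem nhd_cdf (x ε : ℝ) (hε : 0 < ε) :
    {ν : ProbabilityMeasure ℝ | |(ν : Measure ℝ).real (Iic x) - (gaussianReal 0 1).real (Iic x)| < ε} ∈ 𝓝 gam := by
  have h0 : (gam : Measure ℝ) (frontier (Iic x)) = 0 := by
    rw [frontier_Iic]
    show gaussianReal 0 1 {x} = 0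
    have := nullSingletonClass_gaussianReal (μ := 0) (v := 1) (by norm_num)
    exact measure_singleton x
  have h1 : Tendsto (fun ν : ProbabilityMeasure ℝ => (ν : Measure ℝ) (Iic x)) (𝓝 gam) (𝓝 ((gam : Measure ℝ) (Iic x))) :=
    ProbabilityMeasure.tendsto_measure_of_null_frontier_of_tendsto' tendsto_id h0
  have h2 : Tendsto (fun ν : ProbabilityMeasure ℝ => (ν : Measure ℝ).real (Iic x)) (𝓝 gam)
      (𝓝 ((gam : Measure ℝ).real (Iic x))) :=
    (ENNReal.tendsto_toReal (measure_ne_top _ _)).comp h1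
  have h3 := h2.eventually (Metric.ball_mem_nhds _ hε)
  filter_upwards [h3] with ν h4
  rw [Real.dist_eq] at h4
  exact h4

/-- the truncated square -/
noncomputable def tsq (M : ℝ) : BoundedContinuousFunction ℝ ℝ :=
  BoundedContinuousFunction.ofNormedAddCommGroup (fun x : ℝ => min (x ^ 2) |M|) (by fun_prop) |M| (fun x => by
    rw [Real.norm_of_nonneg (le_min (sq_nonneg x) (abs_nonneg M))]
    exact min_le_right _ _)

theorem tsq_apply (M x : ℝ) : tsq M x = min (x ^ 2) |M| := rfl

theorem exists_tsq (ε : ℝ) (hε : 0 < ε) : ∃ M : ℝ, 1 - ε < ∫ x, tsq M x ∂(gam : Measure ℝ) := by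
  have hsq : ∫ x : ℝ, x ^ 2 ∂(gaussianReal 0 1) = 1 := by
    have h1 := variance_fun_id_gaussianReal (μ := 0) (v := 1)
    rw [variance_eq_integral (by fun_prop), integral_id_gaussianReal] at h1
    simpa using h1
  have hint : Integrable (fun x : ℝ => x ^ 2) (gaussianReal 0 1) := by
    have := (memLp_id_gaussianReal (μ := 0) (v := 1) 2).integrable_sq
    simpa using this
  have hlim : Tendsto (fun N : ℕ => ∫ x, tsq (N : ℝ) x ∂(gam : Measure ℝ)) atTop (𝓝 1) := by
    rw [← hsq]
    apply tendsto_integral_of_dominated_convergence (fun x : ℝ => x ^ 2)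
    · intro N
      exact (tsq (N : ℝ)).continuous.aestronglyMeasurable
    · exact hint
    · intro N
      refine ae_of_all _ fun x => ?_
      rw [tsq_apply, Real.norm_of_nonneg (le_min (sq_nonneg x) (abs_nonneg _))]
      exact min_le_left _ _
    · refine ae_of_all _ fun x => ?_
      apply tendsto_const_nhds.congr'
      filter_upwards [eventually_ge_atTop ⌈x ^ 2⌉₊] with N hN
      rw [tsq_apply, min_eq_left]
      rw [abs_of_nonneg (Nat.cast_nonneg N)]
      exact (Nat.le_ceil _).trans (by exact_mod_cast hN)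
  obtain ⟨N, hN⟩ := (hlim.eventually (lt_mem_nhds (show 1 - ε < 1 by linarith))).exists
  exact ⟨N, hN⟩

/-- **Closeness to the normal law.** -/
theorem gauss_close (bd ε : ℝ) (hbd : 0 ≤ bd) (hε : 0 < ε) : ∃ η : ℝ, 0 < η ∧ ∃ T : Finset ℝ,
    ∀ ν : ProbabilityMeasure ℝ, Integrable (fun x : ℝ => x) (ν : Measure ℝ) → Integrable (fun x : ℝ => x ^ 2) (ν : Measure ℝ) →
    ∫ x, |x| ∂(ν : Measure ℝ) ≤ bd →
    (∀ t ∈ T, ‖charFun (ν : Measure ℝ) t - Complex.exp (-(t : ℂ) ^ 2 / 2)‖ ≤ η) →
    (∀ x : ℝ, |(ν : Measure ℝ).real (Iic x) - (gaussianReal 0 1).real (Iic x)| ≤ ε) ∧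
    1 - ε ≤ ∫ x, x ^ 2 ∂(ν : Measure ℝ) := by
  set γ := gaussianReal 0 1 with hγ
  set h : ℝ := ε / 2 with hh
  have hh0 : 0 < h := by positivity
  -- the range
  obtain ⟨a, ha⟩ : ∃ a : ℝ, γ.real (Iic a) < h := by
    have h1 : Tendsto (fun x => γ.real (Iic x)) atBot (𝓝 0) := by
      refine (tendsto_cdf_atBot γ).congr fun x => ?_
      exact cdf_eq_real γ x
    exact (h1.eventually (gt_mem_nhds hh0)).exists
  obtain ⟨b, hb⟩ : ∃ b : ℝ, 1 - h < γ.real (Iic b) := by
    have h1 : Tendsto (fun x => γ.real (Iic x)) atTop (𝓝 1) := by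
      refine (tendsto_cdf_atTop γ).congr fun x => ?_
      exact cdf_eq_real γ x
    exact (h1.eventually (lt_mem_nhds (show 1 - h < 1 by linarith))).exists
  set m : ℕ := ⌈(b - a) / h⌉₊ + 1 with hm
  set y : ℕ → ℝ := fun i => a + i * h with hy
  obtain ⟨M, hM⟩ := exists_tsq (ε / 2) (by positivity)
  set U : Set (ProbabilityMeasure ℝ) := (⋂ i ∈ Finset.range (m + 1),
    {ν : ProbabilityMeasure ℝ | |(ν : Measure ℝ).real (Iic (y i)) - γ.real (Iic (y i))| < h}) ∩
    {ν : ProbabilityMeasure ℝ | 1 - ε < ∫ x, tsq M x ∂(ν : Measure ℝ)} with hU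
  have hUn : U ∈ 𝓝 gam := by
    apply inter_mem
    · rw [Filter.biInter_finset_mem]
      intro i _
      exact nhd_cdf (y i) h hh0
    · have h1 : Tendsto (fun ν : ProbabilityMeasure ℝ => ∫ x, tsq M x ∂(ν : Measure ℝ)) (𝓝 gam)
          (𝓝 (∫ x, tsq M x ∂(gam : Measure ℝ))) :=
        (ProbabilityMeasure.tendsto_iff_forall_integral_tendsto.1 tendsto_id) (tsq M)
      exact h1.eventually (lt_mem_nhds (by linarith))
  obtain ⟨η, hη, T, hT⟩ := levy bd hbd U hUn
  refine ⟨η, hη, T, fun ν hi1 hi2 hm1 hchar => ?_⟩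
  have hν := hT ν hi1 hm1 hchar
  obtain ⟨hν1, hν2⟩ := hν
  rw [mem_iInter₂] at hν1
  have hmonoν : ∀ s t : ℝ, s ≤ t → (ν : Measure ℝ).real (Iic s) ≤ (ν : Measure ℝ).real (Iic t) := fun s t hst =>
    measureReal_mono (Iic_subset_Iic.2 hst)
  have hmonoγ : ∀ s t : ℝ, s ≤ t → γ.real (Iic s) ≤ γ.real (Iic t) := fun s t hst =>
    measureReal_mono (Iic_subset_Iic.2 hst)
  have h1ν : ∀ s : ℝ, (ν : Measure ℝ).real (Iic s) ≤ 1 := fun s => measureReal_le_one
  have h1γ : ∀ s : ℝ, γ.real (Iic s) ≤ 1 := fun s => measureReal_le_one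
  have h0ν : ∀ s : ℝ, 0 ≤ (ν : Measure ℝ).real (Iic s) := fun s => measureReal_nonneg
  have h0γ : ∀ s : ℝ, 0 ≤ γ.real (Iic s) := fun s => measureReal_nonneg
  have hgrid : ∀ i ≤ m, |(ν : Measure ℝ).real (Iic (y i)) - γ.real (Iic (y i))| < h := fun i hi =>
    hν1 i (Finset.mem_range.2 (by omega))
  have hym : b ≤ y m := by
    have e1 := Nat.le_ceil ((b - a) / h)
    rw [div_le_iff₀ hh0] at e1
    rw [hy, hm]
    push_cast
    nlinarith
  constructor
  · intro x
    rcases lt_or_ge x a with hx | hx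
    · have e1 := hgrid 0 (Nat.zero_le _)
      have e0 : y 0 = a := by rw [hy]; simp
      rw [e0] at e1
      have e2 := hmonoν x a hx.le
      have e3 := hmonoγ x a hx.le
      have e4 := (abs_lt.1 e1)
      have e5 := h0ν x
      have e6 := h0γ x
      rw [abs_le]
      constructor <;> linarith
    · rcases le_or_gt (y m) x with hxm | hxm
      · have e1 := hgrid m (le_refl _)
        have e2 := hmonoν (y m) x hxm
        have e3 := hmonoγ b x (hym.trans hxm)
        have e33 := hmonoγ b (y m) hym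
        have e4 := (abs_lt.1 e1)
        have e5 := h1ν x
        have e6 := h1γ x
        rw [abs_le]
        constructor <;> linarith
      · set i : ℕ := ⌊(x - a) / h⌋₊ with hi
        have f0 : 0 ≤ (x - a) / h := div_nonneg (by linarith) hh0.le
        have f1 : y i ≤ x := by
          have := Nat.floor_le f0
          rw [le_div_iff₀ hh0] at this
          rw [hy]
          linarith
        have f2 : x ≤ y (i + 1) := by
          have := (Nat.lt_floor_add_one ((x - a) / h)).le
          rw [div_le_iff₀ hh0] at this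
          rw [hy]
          push_cast
          linarith
        have f3 : i + 1 ≤ m := by
          by_contra hc
          have hc1 : m ≤ i := by omega
          have hc2 : (m : ℝ) ≤ i := by exact_mod_cast hc1
          have hc3 : y m ≤ y i := by
            rw [hy]
            have := mul_le_mul_of_nonneg_right hc2 hh0.le
            linarith
          linarith
        have e1 := abs_lt.1 (hgrid i (by omega))
        have e2 := abs_lt.1 (hgrid (i + 1) f3)
        have e3 := hmonoν _ _ f1
        have e4 := hmonoν _ _ f2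
        have e5 := hmonoγ _ _ f1
        have e6 := hmonoγ _ _ f2
        have e7 := cdf_lip (y i) (y (i + 1)) (f1.trans f2)
        have e8 : y (i + 1) - y i = h := by
          rw [hy]
          push_cast
          ring
        rw [← hγ, e8] at e7
        rw [abs_le]
        constructor <;> linarith
  · have e1 : ∫ x, tsq M x ∂(ν : Measure ℝ) ≤ ∫ x, x ^ 2 ∂(ν : Measure ℝ) := by
      apply integral_mono_ae
      · exact (tsq M).integrable _
      · exact hi2
      · refine ae_of_all _ fun x => ?_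
        show tsq M x ≤ x ^ 2
        rw [tsq_apply]
        exact min_le_left _ _
    have e2 : 1 - ε < ∫ x, tsq M x ∂(ν : Measure ℝ) := hν2
    linarith

end Pool.Agent.Q145.CG
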