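import Pool.Agent.Q145.RA.All

set_option autoImplicit false
set_option maxHeartbeats 4000000

/-! # The second moment of a sum along a random sequence -/

namespace Pool.Agent.Q145.CG

open Finset
open Pool.Agent.Q145.RA (seqs card_seqs)

open scoped Classical

variable {α β : Type}

theorem sum_seqs_succ (S : Finset β) (k : ℕ) (F : (Fin (k + 1) → β) → ℝ) :
    ∑ s ∈ seqs S (k + 1), F s = ∑ a ∈ S, ∑ s ∈ seqs S k, F (Fin.cons a s) := by
  rw [← sum_product']
  refine (Finset.sum_bij' (fun p _ => (Fin.cons p.1 p.2 : Fin (k + 1) → β)) (fun s _ => (s 0, Fin.tail s)) ?_ ?_ ?_ ?_ ?_).symm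
  · intro p hp
    obtain ⟨h1, h2⟩ := mem_product.1 hp
    unfold seqs at h2 ⊢
    rw [Fintype.mem_piFinset] at h2 ⊢
    intro i
    refine Fin.cases ?_ (fun j => ?_) i
    · rw [Fin.cons_zero]
      exact h1
    · rw [Fin.cons_succ]
      exact h2 j
  · intro s hs
    unfold seqs at hs ⊢
    rw [Fintype.mem_piFinset] at hs
    rw [mem_product, Fintype.mem_piFinset]
    exact ⟨hs 0, fun j => hs j.succ⟩
  · intro p _
    ext
    · rw [Fin.cons_zero]
    · rw [Fin.tail_cons]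
  · intro s _
    exact Fin.cons_self_tail s
  · intro p _
    rfl

/-- the sum along a sequence -/
noncomputable def along {k : ℕ} (x : β → ℝ) (s : Fin k → β) : ℝ := ∑ i : Fin k, x (s i)

theorem along_cons {k : ℕ} (x : β → ℝ) (a : β) (s : Fin k → β) :
    along x (Fin.cons a s : Fin (k + 1) → β) = x a + along x s := by
  unfold along
  rw [Fin.sum_univ_succ, Fin.cons_zero]
  simp_rw [Fin.cons_succ]

theorem first (S : Finset β) (x : β → ℝ) (k : ℕ) :
    (∑ s ∈ seqs S k, along x s) * S.card = k * (S.card : ℝ) ^ k * ∑ a ∈ S, x a := by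
  induction k with
  | zero =>
    have : ∀ s : Fin 0 → β, along x s = 0 := fun s => by unfold along; simp
    simp [this]
  | succ k ih =>
    rw [sum_seqs_succ]
    simp_rw [along_cons, sum_add_distrib, sum_const, nsmul_eq_mul, card_seqs]
    rw [← mul_sum]
    push_cast
    rw [add_mul, mul_assoc (S.card : ℝ), ih]
    ring

theorem second (S : Finset β) (x : β → ℝ) (k : ℕ) :
    (∑ s ∈ seqs S k, along x s ^ 2) * (S.card : ℝ) ^ 2 =
      (S.card : ℝ) ^ k * (k * S.card * ∑ a ∈ S, x a ^ 2 + k * (k - 1) * (∑ a ∈ S, x a) ^ 2) := by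
  induction k with
  | zero =>
    have : ∀ s : Fin 0 → β, along x s = 0 := fun s => by unfold along; simp
    simp [this]
  | succ k ih =>
    rw [sum_seqs_succ]
    simp_rw [along_cons]
    have h1 : ∀ a : β, ∑ s ∈ seqs S k, (x a + along x s) ^ 2 =
        x a ^ 2 * (S.card : ℝ) ^ k + 2 * x a * (∑ s ∈ seqs S k, along x s) + ∑ s ∈ seqs S k, along x s ^ 2 := by
      intro a
      have h2 : ∀ s : Fin k → β, (x a + along x s) ^ 2 = x a ^ 2 + 2 * x a * along x s + along x s ^ 2 := fun s => by ring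
      simp_rw [h2, sum_add_distrib, sum_const, nsmul_eq_mul, card_seqs]
      rw [← mul_sum]
      push_cast
      ring
    simp_rw [h1, sum_add_distrib, sum_const, nsmul_eq_mul]
    rw [← sum_mul, ← sum_mul, ← mul_sum]
    have h3 := first S x k
    have h4 : (∑ s ∈ seqs S k, along x s) * (S.card : ℝ) ^ 2 = k * (S.card : ℝ) ^ (k + 1) * ∑ a ∈ S, x a := by
      rw [sq, ← mul_assoc, h3]
      ring
    rw [add_mul, add_mul, mul_assoc (S.card : ℝ), ih]
    have h5 : 2 * (∑ i ∈ S, x i) * (∑ s ∈ seqs S k, along x s) * (S.card : ℝ) ^ 2 =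
        2 * (∑ i ∈ S, x i) * (k * (S.card : ℝ) ^ (k + 1) * ∑ a ∈ S, x a) := by
      rw [mul_assoc, h4]
    rw [h5]
    push_cast
    ring

/-- the second moment -/
theorem second_le (S : Finset β) (hS : S.Nonempty) (x : β → ℝ) (k : ℕ) (q η : ℝ) (hq : 0 ≤ q) (hη : 0 ≤ η) (hη1 : η ≤ 1)
    (h1 : (k : ℝ) * (∑ a ∈ S, x a) ^ 2 ≤ η ^ 2 * q * (S.card : ℝ) ^ 2)
    (h2 : ∑ a ∈ S, x a ^ 2 ≤ (1 + η) * (q * S.card)) :
    ∑ s ∈ seqs S k, along x s ^ 2 ≤ (1 + 2 * η) * (k * q) * (S.card : ℝ) ^ k := by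
  have hS0 : (0 : ℝ) < S.card := by exact_mod_cast card_pos.2 hS
  have h3 := second S x k
  have hk : (0 : ℝ) ≤ k := Nat.cast_nonneg k
  have h4 : (k : ℝ) * S.card * ∑ a ∈ S, x a ^ 2 + k * (k - 1) * (∑ a ∈ S, x a) ^ 2 ≤
      (1 + 2 * η) * (k * q) * (S.card : ℝ) ^ 2 := by
    have e1 : (k : ℝ) * S.card * ∑ a ∈ S, x a ^ 2 ≤ k * S.card * ((1 + η) * (q * S.card)) :=
      mul_le_mul_of_nonneg_left h2 (by positivity)
    have e2 : (k : ℝ) * (k * (∑ a ∈ S, x a) ^ 2) ≤ k * (η ^ 2 * q * (S.card : ℝ) ^ 2) := mul_le_mul_of_nonneg_left h1 hk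
    have e3 : 0 ≤ (k : ℝ) * (∑ a ∈ S, x a) ^ 2 := by positivity
    have e4 : (k : ℝ) * (η ^ 2 * q * (S.card : ℝ) ^ 2) ≤ k * (η * q * (S.card : ℝ) ^ 2) := by
      have : η ^ 2 ≤ η := by nlinarith
      gcongr
    nlinarith
  have h5 : (∑ s ∈ seqs S k, along x s ^ 2) * (S.card : ℝ) ^ 2 ≤
      ((1 + 2 * η) * (k * q) * (S.card : ℝ) ^ k) * (S.card : ℝ) ^ 2 := by
    rw [h3]
    calc (S.card : ℝ) ^ k * (k * S.card * ∑ a ∈ S, x a ^ 2 + k * (k - 1) * (∑ a ∈ S, x a) ^ 2) ≤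
        (S.card : ℝ) ^ k * ((1 + 2 * η) * (k * q) * (S.card : ℝ) ^ 2) := mul_le_mul_of_nonneg_left h4 (by positivity)
      _ = _ := by ring
  exact le_of_mul_le_mul_right h5 (by positivity)

end Pool.Agent.Q145.CG
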