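import Pool.Agent.Q145.CG.Law
import Pool.Agent.Q145.MD.Tilt

set_option autoImplicit false
set_option maxHeartbeats 4000000

/-! # The normal law for the number of hits -/

namespace Pool.Agent.Q145.CG

open Finset Filter MeasureTheory ProbabilityTheory
open Pool.Agent.Q145.RA (seqs card_seqs card_filter_inst)
open Pool.Agent.Q145.MD (Reg2)
open Pool.Agent.Q145.LD (hit)

open scoped Classical

variable {α β : Type}

/-- the centred indicator -/
noncomputable def xi (R : α → β → Prop) (δ : ℝ) (n : α) (a : β) : ℝ := (if R n a then 1 else 0) - δ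

theorem sum_xi (R : α → β → Prop) (δ : ℝ) (n : α) (S : Finset β) :
    ∑ a ∈ S, xi R δ n a = ((S.filter (fun a => R n a)).card : ℝ) - δ * S.card := by
  unfold xi
  rw [sum_sub_distrib, ← sum_filter, sum_const, sum_const, nsmul_eq_mul, nsmul_eq_mul, mul_one, mul_comm]

theorem sum_xi_mul (R : α → β → Prop) (δ : ℝ) (n m : α) (S : Finset β) :
    ∑ a ∈ S, xi R δ n a * xi R δ m a = ((S.filter (fun a => R n a ∧ R m a)).card : ℝ) -
      δ * ((S.filter (fun a => R n a)).card : ℝ) - δ * ((S.filter (fun a => R m a)).card : ℝ) + δ ^ 2 * S.card := by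
  have h1 : ∀ a : β, xi R δ n a * xi R δ m a = (if R n a ∧ R m a then 1 else 0) - δ * (if R n a then 1 else 0) -
      δ * (if R m a then 1 else 0) + δ ^ 2 := by
    intro a
    unfold xi
    by_cases h : R n a <;> by_cases h' : R m a
    · rw [if_pos h, if_pos h', if_pos ⟨h, h'⟩]
      ring
    · rw [if_pos h, if_neg h', if_neg (fun h'' => h' h''.2)]
      ring
    · rw [if_neg h, if_pos h', if_neg (fun h'' => h h''.1)]
      ring
    · rw [if_neg h, if_neg h', if_neg (fun h'' => h h''.1)]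
      ring
  simp_rw [h1]
  rw [sum_add_distrib, sum_sub_distrib, sum_sub_distrib, ← mul_sum, ← mul_sum, ← sum_filter, ← sum_filter, ← sum_filter,
    sum_const, sum_const, sum_const, sum_const]
  simp only [nsmul_eq_mul, mul_one]
  ring

theorem sys_of_reg (η η₁ δ : ℝ) (K : ℕ) (S : Finset β) (W : Finset α) (R : α → β → Prop) (hR : Reg2 η₁ (η / 2) δ S W R)
    (hη : 0 < η) (hη1 : η ≤ 1) (hδ : 0 < δ) (hδη : δ ≤ η / 10) (_hη₁ : 0 ≤ η₁) (hη₁η : η₁ ≤ η / 2)
    (hK : (K * δ) * η₁ ^ 2 ≤ η ^ 2) (hbig : 1 ≤ η * (K * δ)) (hW : 1 ≤ η * W.card) (hS : S.Nonempty) :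
    Sys η δ K S W (xi R δ) W.diag := by
  have hS0 : (0 : ℝ) < S.card := by exact_mod_cast card_pos.2 hS
  have hdeg : ∀ n ∈ W, |((S.filter (fun a => R n a)).card : ℝ) - δ * S.card| ≤ η₁ * (δ * S.card) := by
    intro n hn
    have h1 := hR.lo n hn
    have h2 := hR.hi n hn
    rw [abs_le]
    constructor <;> linarith
  have hdS : 0 < δ * S.card := by positivity
  have hδδ : δ * (δ * S.card) ≤ η / 10 * (δ * S.card) := mul_le_mul_of_nonneg_right hδη hdS.le
  have hη₁d : η₁ * (δ * S.card) ≤ η / 2 * (δ * S.card) := mul_le_mul_of_nonneg_right hη₁η hdS.le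
  have hηd : η * (δ * S.card) ≤ 1 * (δ * S.card) := mul_le_mul_of_nonneg_right hη1 hdS.le
  refine ⟨hη, hη1, hδ, by linarith, hbig, ?_, ?_, ?_, ?_, ?_, hS, ?_⟩
  · intro n _ a _
    unfold xi
    split_ifs
    · rw [abs_le]
      constructor <;> linarith
    · rw [abs_le]
      constructor <;> linarith
  · intro n hn
    rw [sum_xi]
    have h1 := hdeg n hn
    have h2 : (((S.filter (fun a => R n a)).card : ℝ) - δ * S.card) ^ 2 ≤ (η₁ * (δ * S.card)) ^ 2 := by
      rw [← sq_abs]
      exact pow_le_pow_left₀ (abs_nonneg _) h1 2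
    calc (K : ℝ) * (((S.filter (fun a => R n a)).card : ℝ) - δ * S.card) ^ 2 ≤ K * (η₁ * (δ * S.card)) ^ 2 :=
          mul_le_mul_of_nonneg_left h2 (Nat.cast_nonneg _)
      _ = ((K * δ) * η₁ ^ 2) * (δ * (S.card : ℝ) ^ 2) := by ring
      _ ≤ η ^ 2 * (δ * (S.card : ℝ) ^ 2) := mul_le_mul_of_nonneg_right hK (by positivity)
      _ = _ := by ring
  · intro n hn
    have h1 : ∀ a : β, xi R δ n a ^ 2 = xi R δ n a * xi R δ n a := fun a => sq _
    simp_rw [h1]
    rw [sum_xi_mul]
    simp only [and_self]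
    have h2 := abs_le.1 (hdeg n hn)
    set D : ℝ := ((S.filter (fun a => R n a)).card : ℝ) with hD
    have hD0 : 0 ≤ D := Nat.cast_nonneg _
    have h3 : D ≤ 2 * (δ * S.card) := by linarith
    have h4 : δ * D ≤ δ * (2 * (δ * S.card)) := mul_le_mul_of_nonneg_left h3 hδ.le
    have h5 : 0 ≤ δ * D := by positivity
    have h6 : δ ^ 2 * (S.card : ℝ) = δ * (δ * S.card) := by ring
    rw [h6, abs_le]
    constructor <;> linarith
  · intro n hn m hm hnm
    have hne : n ≠ m := fun h => hnm (by rw [h]; exact mem_diag.2 ⟨hm, rfl⟩)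
    rw [sum_xi_mul]
    have h2 := abs_le.1 (hdeg n hn)
    have h2' := abs_le.1 (hdeg m hm)
    have h7 := hR.two n hn m hm hne
    set D : ℝ := ((S.filter (fun a => R n a)).card : ℝ) with hD
    set D' : ℝ := ((S.filter (fun a => R m a)).card : ℝ) with hD'
    have hD0 : 0 ≤ D := Nat.cast_nonneg _
    have hD0' : 0 ≤ D' := Nat.cast_nonneg _
    have h8 : (0 : ℝ) ≤ ((S.filter (fun a => R n a ∧ R m a)).card : ℝ) := Nat.cast_nonneg _
    have h3 : D ≤ 2 * (δ * S.card) := by linarith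
    have h3' : D' ≤ 2 * (δ * S.card) := by linarith
    have h4 : δ * D ≤ δ * (2 * (δ * S.card)) := mul_le_mul_of_nonneg_left h3 hδ.le
    have h4' : δ * D' ≤ δ * (2 * (δ * S.card)) := mul_le_mul_of_nonneg_left h3' hδ.le
    have h5 : 0 ≤ δ * D := by positivity
    have h5' : 0 ≤ δ * D' := by positivity
    have h6 : δ ^ 2 * (S.card : ℝ) = δ * (δ * S.card) := by ring
    have h9 : 0 ≤ δ * (δ * S.card) := by positivity
    rw [h6, abs_le]
    constructor <;> linarith
  · rw [diag_card, sq, ← mul_assoc]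
    have : (0 : ℝ) ≤ W.card := Nat.cast_nonneg _
    nlinarith
  · rw [nonempty_iff_ne_empty]
    intro h
    rw [h, card_empty, Nat.cast_zero, mul_zero] at hW
    linarith

theorem along_xi (R : α → β → Prop) (δ : ℝ) (n : α) {K : ℕ} (s : Fin K → β) :
    along (xi R δ n) s = (hit R s n : ℝ) - K * δ := by
  unfold along xi hit
  rw [sum_sub_distrib, sum_const, card_univ, Fintype.card_fin, nsmul_eq_mul]
  push_cast
  rfl

end Pool.Agent.Q145.CG
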