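import Pool.Agent.Q145.CG.L2
import Pool.Agent.Q145.CG.Moment
import Pool.Agent.Q145.CG.Levy

set_option autoImplicit false
set_option maxHeartbeats 4000000

/-! # The characteristic functions -/

namespace Pool.Agent.Q145.CG

open Finset
open Pool.Agent.Q145.RA (seqs card_seqs)
open scoped ComplexConjugate

open scoped Classical

variable {α β : Type}

theorem tay (y : ℝ) (hy : |y| ≤ 1) : ‖Complex.exp (y * Complex.I) - (1 + y * Complex.I - (y : ℂ) ^ 2 / 2)‖ ≤ |y| ^ 3 := by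
  have hn : ‖(y : ℂ) * Complex.I‖ = |y| := by
    rw [norm_mul, Complex.norm_I, mul_one, Complex.norm_real, Real.norm_eq_abs]
  have h := Complex.exp_bound (x := (y : ℂ) * Complex.I) (by rw [hn]; exact hy) (n := 3) (by norm_num)
  have h1 : ∑ m ∈ range 3, ((y : ℂ) * Complex.I) ^ m / (m.factorial : ℂ) = 1 + y * Complex.I - (y : ℂ) ^ 2 / 2 := by
    rw [sum_range_succ, sum_range_succ, sum_range_succ, sum_range_zero]
    simp only [pow_zero, pow_one, Nat.factorial_zero, Nat.factorial_one, Nat.factorial_two, Nat.cast_one, div_one,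
      mul_pow, Complex.I_sq]
    push_cast
    ring
  rw [h1, hn] at h
  refine h.trans ?_
  have h3 : ((Nat.succ 3 : ℕ) : ℝ) * (((Nat.factorial 3 : ℕ) : ℝ) * ((3 : ℕ) : ℝ))⁻¹ ≤ 1 := by
    norm_num [Nat.factorial]
  have := pow_nonneg (abs_nonneg y) 3
  nlinarith

/-- one characteristic function -/
theorem est (S : Finset β) (hS : S.Nonempty) (y : β → ℝ) (hy : ∀ a ∈ S, |y a| ≤ 1) (V A B C : ℝ) (hV : 0 ≤ V) (hV1 : V ≤ 1)
    (h1 : |∑ a ∈ S, y a| ≤ A * S.card) (h2 : |∑ a ∈ S, y a ^ 2 - V * S.card| ≤ B * S.card)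
    (h3 : ∑ a ∈ S, |y a| ^ 3 ≤ C * S.card) :
    ‖(∑ a ∈ S, Complex.exp (y a * Complex.I)) / S.card - (Real.exp (-(V / 2)) : ℝ)‖ ≤ A + B / 2 + C + V ^ 2 / 4 := by
  have hS0 : (0 : ℝ) < S.card := by exact_mod_cast card_pos.2 hS
  have hSc : (S.card : ℂ) ≠ 0 := by exact_mod_cast hS0.ne'
  have e1 : ‖∑ a ∈ S, Complex.exp (y a * Complex.I) - ((S.card : ℂ) + (∑ a ∈ S, y a : ℝ) * Complex.I -
      ((∑ a ∈ S, y a ^ 2 : ℝ) : ℂ) / 2)‖ ≤ C * S.card := by
    have f1 : ∑ a ∈ S, Complex.exp (y a * Complex.I) - ((S.card : ℂ) + (∑ a ∈ S, y a : ℝ) * Complex.I -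
        ((∑ a ∈ S, y a ^ 2 : ℝ) : ℂ) / 2) =
        ∑ a ∈ S, (Complex.exp (y a * Complex.I) - (1 + y a * Complex.I - (y a : ℂ) ^ 2 / 2)) := by
      rw [sum_sub_distrib, sum_sub_distrib, sum_add_distrib, sum_const, nsmul_eq_mul, mul_one, ← sum_mul, ← sum_div]
      push_cast
      rfl
    rw [f1]
    exact (norm_sum_le _ _).trans ((sum_le_sum fun a ha => tay (y a) (hy a ha)).trans h3)
  have e2' : ∀ (E : ℂ) (s1 s2 : ℝ), E / S.card - (Real.exp (-(V / 2)) : ℝ) =
      (E - ((S.card : ℂ) + (s1 : ℝ) * Complex.I -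
      ((s2 : ℝ) : ℂ) / 2)) / S.card + (((s1 / S.card : ℝ) : ℂ) * Complex.I +
      ((-((s2 - V * S.card) / S.card / 2) + ((1 - V / 2) - Real.exp (-(V / 2))) : ℝ) : ℂ)) := by
    intro E s1 s2
    push_cast
    field_simp
    ring
  rw [e2' (∑ a ∈ S, Complex.exp (y a * Complex.I)) (∑ a ∈ S, y a) (∑ a ∈ S, y a ^ 2)]
  refine (norm_add_le _ _).trans ?_
  have g1 : ‖((∑ a ∈ S, Complex.exp (y a * Complex.I)) - ((S.card : ℂ) + (∑ a ∈ S, y a : ℝ) * Complex.I -
      ((∑ a ∈ S, y a ^ 2 : ℝ) : ℂ) / 2)) / S.card‖ ≤ C := by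
    rw [norm_div, Complex.norm_natCast, div_le_iff₀ hS0]
    exact e1
  have g2 : ‖(((∑ a ∈ S, y a) / S.card : ℝ) : ℂ) * Complex.I‖ ≤ A := by
    rw [norm_mul, Complex.norm_I, mul_one, Complex.norm_real, Real.norm_eq_abs, abs_div, abs_of_pos hS0, div_le_iff₀ hS0]
    exact h1
  have g3 : ‖((-(((∑ a ∈ S, y a ^ 2) - V * S.card) / S.card / 2) + ((1 - V / 2) - Real.exp (-(V / 2))) : ℝ) : ℂ)‖ ≤
      B / 2 + V ^ 2 / 4 := by
    rw [Complex.norm_real, Real.norm_eq_abs]
    refine (abs_add_le _ _).trans ?_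
    apply add_le_add
    · rw [abs_neg, abs_div, abs_div, abs_of_pos hS0, abs_of_pos (show (0 : ℝ) < 2 by norm_num)]
      apply div_le_div_of_nonneg_right _ (by norm_num)
      rw [div_le_iff₀ hS0]
      exact h2
    · have f1 := Real.abs_exp_sub_one_sub_id_le (x := -(V / 2)) (by rw [abs_neg, abs_of_nonneg (by positivity)]; linarith)
      rw [abs_sub_comm]
      have f2 : Real.exp (-(V / 2)) - (1 - V / 2) = Real.exp (-(V / 2)) - 1 - -(V / 2) := by ring
      rw [f2]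
      refine f1.trans (le_of_eq ?_)
      ring
  have g4 := (norm_add_le ((((∑ a ∈ S, y a) / S.card : ℝ) : ℂ) * Complex.I)
    ((-(((∑ a ∈ S, y a ^ 2) - V * S.card) / S.card / 2) + ((1 - V / 2) - Real.exp (-(V / 2))) : ℝ) : ℂ)).trans
    (add_le_add g2 g3)
  linarith

/-- the hypotheses -/
structure Sys (η q : ℝ) (K : ℕ) (S : Finset β) (W : Finset α) (x : α → β → ℝ) (P : Finset (α × α)) : Prop where
  e0 : 0 < η
  e1 : η ≤ 1
  q0 : 0 < q
  q1 : q ≤ 1
  big : 1 ≤ η * (K * q)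
  bd : ∀ n ∈ W, ∀ a ∈ S, |x n a| ≤ 1
  mean : ∀ n ∈ W, (K : ℝ) * (∑ a ∈ S, x n a) ^ 2 ≤ η ^ 2 * q * (S.card : ℝ) ^ 2
  var : ∀ n ∈ W, |∑ a ∈ S, x n a ^ 2 - q * S.card| ≤ η * (q * S.card)
  cov : ∀ n ∈ W, ∀ m ∈ W, (n, m) ∉ P → |∑ a ∈ S, x n a * x m a| ≤ η * (q * S.card)
  pc : (P.card : ℝ) ≤ η * (W.card : ℝ) ^ 2
  s0 : S.Nonempty
  w0 : W.Nonempty

/-- the error -/
noncomputable def er (t η : ℝ) : ℝ := 21 * (1 + |t|) ^ 3 * Real.sqrt η

theorem char_law (η q : ℝ) (K : ℕ) (S : Finset β) (W : Finset α) (x : α → β → ℝ) (P : Finset (α × α))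
    (h : Sys η q K S W x P) (t : ℝ) (ht : 4 * (1 + t ^ 2) * η ≤ 1) :
    ∑ s ∈ seqs S K, ‖av W (fun n a => Complex.exp ((t / Real.sqrt (K * q) * x n a : ℝ) * Complex.I)) s -
      (Real.exp (-(t ^ 2 / 2)) : ℝ)‖ ^ 2 ≤ 5 * er t η * (S.card : ℝ) ^ K := by
  obtain ⟨e0, e1, q0, q1, big, bd, mean, var, cov, pc, s0, w0⟩ := h
  have hS0 : (0 : ℝ) < S.card := by exact_mod_cast card_pos.2 s0
  have hK0 : (0 : ℝ) < K := by
    rcases Nat.eq_zero_or_pos K with h | h
    · rw [h, Nat.cast_zero, zero_mul, mul_zero] at big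
      linarith
    · exact_mod_cast h
  have hKq : 0 < (K : ℝ) * q := by positivity
  set r : ℝ := Real.sqrt (K * q) with hr
  have hr2 : r ^ 2 = K * q := Real.sq_sqrt hKq.le
  have hr0 : 0 < r := Real.sqrt_pos.2 hKq
  set θ : ℝ := t / r with hθ
  have hθ2 : θ ^ 2 * (K * q) = t ^ 2 := by
    rw [hθ, div_pow, hr2]
    field_simp
  have ht2 := sq_nonneg t
  have hθs : θ ^ 2 ≤ t ^ 2 * η := by
    have e2 : θ ^ 2 * 1 ≤ θ ^ 2 * (η * (K * q)) := mul_le_mul_of_nonneg_left big (sq_nonneg _)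
    calc θ ^ 2 = θ ^ 2 * 1 := (mul_one _).symm
      _ ≤ θ ^ 2 * (η * (K * q)) := e2
      _ = (θ ^ 2 * (K * q)) * η := by ring
      _ = t ^ 2 * η := by rw [hθ2]
  have hθ14 : θ ^ 2 ≤ (1 / 2) ^ 2 := by nlinarith
  have hθ12 : |θ| ≤ 1 / 2 := abs_le_of_sq_le_sq hθ14 (by norm_num)
  have hθa := abs_nonneg θ
  have hta := abs_nonneg t
  have hsη : 0 < Real.sqrt η := Real.sqrt_pos.2 e0
  have hsη2 : Real.sqrt η ^ 2 = η := Real.sq_sqrt e0.le
  have hsη1 : Real.sqrt η ≤ 1 := Real.sqrt_le_one.2 e1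
  have hηs : η ≤ Real.sqrt η := by nlinarith
  have hθt : |θ| ≤ |t| * Real.sqrt η := by
    apply abs_le_of_sq_le_sq _ (by positivity)
    rw [mul_pow, sq_abs, hsη2]
    exact hθs
  set V : ℝ := t ^ 2 / K with hV
  have hVθ : V = θ ^ 2 * q := by
    rw [hV, ← hθ2]
    field_simp
  have hV0 : 0 ≤ V := by positivity
  have hVa : V ≤ |θ| ^ 2 := by
    rw [hVθ, sq_abs]
    nlinarith [sq_nonneg θ]
  have hVθ1 : V ≤ |θ| := by nlinarith
  have hV4 : V ≤ 1 / 4 := by nlinarith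
  have hKV : (K : ℝ) * V = t ^ 2 := by
    rw [hV]
    field_simp
  clear_value θ V
  -- the mean
  have hmean : ∀ n ∈ W, |θ| * |∑ a ∈ S, x n a| ≤ |t| * η / K * S.card := by
    intro n hn
    apply le_of_sq_le_sq _ (by positivity)
    rw [mul_pow, sq_abs, sq_abs, mul_pow, div_pow, mul_pow, sq_abs]
    have f1 := mean n hn
    have f2 : θ ^ 2 * (∑ a ∈ S, x n a) ^ 2 * (K ^ 2 * q) ≤ t ^ 2 * η ^ 2 / K ^ 2 * (S.card : ℝ) ^ 2 * (K ^ 2 * q) := by
      calc θ ^ 2 * (∑ a ∈ S, x n a) ^ 2 * (K ^ 2 * q) = (θ ^ 2 * (K * q)) * (K * (∑ a ∈ S, x n a) ^ 2) := by ring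
        _ = t ^ 2 * (K * (∑ a ∈ S, x n a) ^ 2) := by rw [hθ2]
        _ ≤ t ^ 2 * (η ^ 2 * q * (S.card : ℝ) ^ 2) := mul_le_mul_of_nonneg_left f1 ht2
        _ = t ^ 2 * η ^ 2 / K ^ 2 * (S.card : ℝ) ^ 2 * (K ^ 2 * q) := by
          field_simp
    exact le_of_mul_le_mul_right f2 (by positivity)
  have hq2 : ∀ n ∈ W, ∑ a ∈ S, x n a ^ 2 ≤ 2 * (q * S.card) := by
    intro n hn
    have f1 := (abs_le.1 (var n hn)).2
    have f2 : η * (q * S.card) ≤ 1 * (q * S.card) := mul_le_mul_of_nonneg_right e1 (by positivity)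
    linarith
  set c : ℝ := Real.exp (-(V / 2)) with hc
  have hc0 : 0 ≤ c := (Real.exp_pos _).le
  have hc1 : c ≤ 1 := Real.exp_le_one_iff.2 (by linarith)
  have hcK : c ^ K = Real.exp (-(t ^ 2 / 2)) := by
    rw [hc, ← Real.exp_nat_mul]
    congr 1
    rw [← hKV]
    ring
  have hc2 : c ^ 2 = Real.exp (-(2 * V / 2)) := by
    rw [hc, ← Real.exp_nat_mul]
    congr 1
    push_cast
    ring
  have her : ∀ Q : ℝ, Q ≤ 2 * |t| * η + 2 * t ^ 2 * η + 17 * (|θ| * t ^ 2) → Q ≤ er t η := by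
    intro Q hQ
    refine hQ.trans ?_
    unfold er
    have f1 : |θ| * t ^ 2 ≤ |t| ^ 3 * Real.sqrt η := by
      calc |θ| * t ^ 2 ≤ (|t| * Real.sqrt η) * t ^ 2 := mul_le_mul_of_nonneg_right hθt ht2
        _ = |t| ^ 3 * Real.sqrt η := by
          rw [← sq_abs t]
          ring
    have f2 : 2 * |t| * η ≤ 2 * |t| * Real.sqrt η := mul_le_mul_of_nonneg_left hηs (by positivity)
    have f3 : 2 * t ^ 2 * η ≤ 2 * |t| ^ 2 * Real.sqrt η := by
      rw [sq_abs]
      exact mul_le_mul_of_nonneg_left hηs (by positivity)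
    have f4 : (2 * |t| + 2 * |t| ^ 2 + 17 * |t| ^ 3) * Real.sqrt η ≤ (21 * (1 + |t|) ^ 3) * Real.sqrt η := by
      apply mul_le_mul_of_nonneg_right _ hsη.le
      have : 0 ≤ |t| ^ 2 := sq_nonneg _
      have : 0 ≤ |t| ^ 3 := by positivity
      nlinarith
    linarith
  have hηer : η ≤ er t η := by
    unfold er
    have f1 : (1 : ℝ) ≤ (1 + |t|) ^ 3 := one_le_pow₀ (by linarith)
    have f2 : Real.sqrt η ≤ 21 * (1 + |t|) ^ 3 * Real.sqrt η := by
      have : (1 : ℝ) * Real.sqrt η ≤ 21 * (1 + |t|) ^ 3 * Real.sqrt η :=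
        mul_le_mul_of_nonneg_right (by linarith) hsη.le
      linarith
    exact hηs.trans f2
  have her0 : 0 ≤ er t η := e0.le.trans hηer
  have key := l2 S W s0 w0 (fun n a => Complex.exp ((θ * x n a : ℝ) * Complex.I)) (fun n _ a _ => by
    rw [Complex.norm_exp_ofReal_mul_I]) c (er t η) hc0 hc1 her0 K (by
      intro n hn
      have f := est S s0 (fun a => θ * x n a) (by
        intro a ha
        rw [abs_mul]
        have := bd n hn a ha
        nlinarith [abs_nonneg (x n a)]) V (|t| * η / K) (V * η) (2 * |θ| * V) hV0 (by linarith) (by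
        rw [← mul_sum, abs_mul]
        exact hmean n hn) (by
        simp_rw [mul_pow]
        rw [← mul_sum]
        have g1 : θ ^ 2 * ∑ a ∈ S, x n a ^ 2 - V * S.card = θ ^ 2 * (∑ a ∈ S, x n a ^ 2 - q * S.card) := by
          rw [hVθ]
          ring
        rw [g1, abs_mul, abs_of_nonneg (sq_nonneg θ)]
        calc θ ^ 2 * |∑ a ∈ S, x n a ^ 2 - q * S.card| ≤ θ ^ 2 * (η * (q * S.card)) :=
              mul_le_mul_of_nonneg_left (var n hn) (sq_nonneg _)
          _ = V * η * S.card := by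
            rw [hVθ]
            ring) (by
        calc ∑ a ∈ S, |θ * x n a| ^ 3 ≤ ∑ a ∈ S, |θ| * θ ^ 2 * x n a ^ 2 := by
              apply sum_le_sum
              intro a ha
              rw [abs_mul, mul_pow]
              have g1 : |x n a| ^ 3 ≤ x n a ^ 2 := by
                rw [← sq_abs (x n a)]
                have := bd n hn a ha
                nlinarith [abs_nonneg (x n a), sq_nonneg |x n a|]
              calc |θ| ^ 3 * |x n a| ^ 3 ≤ |θ| ^ 3 * x n a ^ 2 := mul_le_mul_of_nonneg_left g1 (by positivity)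
                _ = |θ| * θ ^ 2 * x n a ^ 2 := by
                  rw [← sq_abs θ]
                  ring
          _ = |θ| * θ ^ 2 * ∑ a ∈ S, x n a ^ 2 := by rw [mul_sum]
          _ ≤ |θ| * θ ^ 2 * (2 * (q * S.card)) := mul_le_mul_of_nonneg_left (hq2 n hn) (by positivity)
          _ = 2 * |θ| * V * S.card := by
            rw [hVθ]
            ring)
      have g := mul_le_mul_of_nonneg_left f hK0.le
      refine g.trans (her _ ?_)
      have g1 : (K : ℝ) * (|t| * η / K + V * η / 2 + 2 * |θ| * V + V ^ 2 / 4) =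
          |t| * η + (K * V) * η / 2 + 2 * |θ| * (K * V) + (K * V) * V / 4 := by
        field_simp
      rw [g1, hKV]
      have g2 : t ^ 2 * V ≤ t ^ 2 * |θ| := mul_le_mul_of_nonneg_left hVθ1 ht2
      have g3 : 0 ≤ |t| * η := by positivity
      have g4 : 0 ≤ t ^ 2 * η := by positivity
      have g5 : 0 ≤ |θ| * t ^ 2 := by positivity
      linarith) P (pc.trans (mul_le_mul_of_nonneg_right hηer (by positivity))) (by
      intro n hn m hm hnm
      have hx : ∀ a ∈ S, |x n a - x m a| ≤ 2 := fun a ha => by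
        have g1 := abs_sub (x n a) (x m a)
        have := bd n hn a ha
        have := bd m hm a ha
        linarith
      have f := est S s0 (fun a => θ * (x n a - x m a)) (by
        intro a ha
        rw [abs_mul]
        have := hx a ha
        nlinarith [abs_nonneg (x n a - x m a)]) (2 * V) (2 * (|t| * η / K)) (4 * (V * η)) (16 * (|θ| * V)) (by linarith) (by linarith) (by
        rw [← mul_sum, abs_mul, sum_sub_distrib]
        have g1 := hmean n hn
        have g2 := hmean m hm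
        have g3 := mul_le_mul_of_nonneg_left (abs_sub (∑ a ∈ S, x n a) (∑ a ∈ S, x m a)) hθa
        linarith) (by
        have g1 : ∑ a ∈ S, (θ * (x n a - x m a)) ^ 2 - 2 * V * S.card = θ ^ 2 * ((∑ a ∈ S, x n a ^ 2 - q * S.card) +
            (∑ a ∈ S, x m a ^ 2 - q * S.card) - 2 * ∑ a ∈ S, x n a * x m a) := by
          have g2 : ∀ a : β, (θ * (x n a - x m a)) ^ 2 = θ ^ 2 * (x n a ^ 2 + x m a ^ 2 - 2 * (x n a * x m a)) := fun a => by ring
          simp_rw [g2]
          rw [← mul_sum, sum_sub_distrib, sum_add_distrib, ← mul_sum, hVθ]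
          ring
        rw [g1, abs_mul, abs_of_nonneg (sq_nonneg θ)]
        have g3 : |(∑ a ∈ S, x n a ^ 2 - q * S.card) + (∑ a ∈ S, x m a ^ 2 - q * S.card) - 2 * ∑ a ∈ S, x n a * x m a| ≤
            4 * (η * (q * S.card)) := by
          have k1 := abs_le.1 (var n hn)
          have k2 := abs_le.1 (var m hm)
          have k3 := abs_le.1 (cov n hn m hm hnm)
          rw [abs_le]
          constructor <;> linarith
        calc θ ^ 2 * _ ≤ θ ^ 2 * (4 * (η * (q * S.card))) := mul_le_mul_of_nonneg_left g3 (sq_nonneg _)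
          _ = 4 * (V * η) * S.card := by
            rw [hVθ]
            ring) (by
        calc ∑ a ∈ S, |θ * (x n a - x m a)| ^ 3 ≤ ∑ a ∈ S, |θ| * θ ^ 2 * (4 * x n a ^ 2 + 4 * x m a ^ 2) := by
              apply sum_le_sum
              intro a ha
              rw [abs_mul, mul_pow]
              have g1 : |x n a - x m a| ^ 3 ≤ 4 * x n a ^ 2 + 4 * x m a ^ 2 := by
                have k1 : |x n a - x m a| ^ 3 ≤ 2 * (x n a - x m a) ^ 2 := by
                  rw [← sq_abs (x n a - x m a)]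
                  have := hx a ha
                  nlinarith [abs_nonneg (x n a - x m a), sq_nonneg |x n a - x m a|]
                nlinarith [sq_nonneg (x n a + x m a)]
              calc |θ| ^ 3 * |x n a - x m a| ^ 3 ≤ |θ| ^ 3 * (4 * x n a ^ 2 + 4 * x m a ^ 2) :=
                    mul_le_mul_of_nonneg_left g1 (by positivity)
                _ = |θ| * θ ^ 2 * (4 * x n a ^ 2 + 4 * x m a ^ 2) := by
                  rw [← sq_abs θ]
                  ring
          _ = |θ| * θ ^ 2 * (4 * ∑ a ∈ S, x n a ^ 2 + 4 * ∑ a ∈ S, x m a ^ 2) := by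
              rw [← mul_sum, sum_add_distrib, ← mul_sum, ← mul_sum]
          _ ≤ |θ| * θ ^ 2 * (4 * (2 * (q * S.card)) + 4 * (2 * (q * S.card))) := by
              apply mul_le_mul_of_nonneg_left _ (by positivity)
              have := hq2 n hn
              have := hq2 m hm
              linarith
          _ = 16 * (|θ| * V) * S.card := by
            rw [hVθ]
            ring)
      have g0 : (∑ a ∈ S, Complex.exp ((θ * x n a : ℝ) * Complex.I) * conj (Complex.exp ((θ * x m a : ℝ) * Complex.I))) /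
          (S.card : ℂ) - ((c : ℝ) : ℂ) ^ 2 =
          (∑ a ∈ S, Complex.exp (((θ * (x n a - x m a) : ℝ) : ℂ) * Complex.I)) / S.card -
          ((Real.exp (-(2 * V / 2)) : ℝ) : ℂ) := by
        rw [← Complex.ofReal_pow, hc2]
        congr 2
        apply sum_congr rfl
        intro a _
        rw [← Complex.exp_conj, ← Complex.exp_add]
        congr 1
        simp only [map_mul, Complex.conj_ofReal, Complex.conj_I]
        push_cast
        ring
      simp only [g0]
      have g := mul_le_mul_of_nonneg_left f hK0.le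
      refine g.trans (her _ ?_)
      have g1 : (K : ℝ) * (2 * (|t| * η / K) + 4 * (V * η) / 2 + 16 * (|θ| * V) + (2 * V) ^ 2 / 4) =
          2 * (|t| * η) + 2 * (K * V) * η + 16 * (|θ| * (K * V)) + (K * V) * V := by
        field_simp
        ring
      rw [g1, hKV]
      have g2 : t ^ 2 * V ≤ t ^ 2 * |θ| := mul_le_mul_of_nonneg_left hVθ1 ht2
      linarith)
  have hcK' : ((c : ℝ) : ℂ) ^ K = ((Real.exp (-(t ^ 2 / 2)) : ℝ) : ℂ) := by
    rw [← Complex.ofReal_pow, hcK]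
  rw [hcK'] at key
  exact key

end Pool.Agent.Q145.CG
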